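import Pool.Agent.Helper43.LO.Step

/-!
# Odd cycles along a tree: absorbing the rest of a cycle in pairs
-/

set_option autoImplicit false

namespace Pool.Agent.Helper43.LO

open Pool.Agent.Helper43.LG Pool.Agent.Helper43.LT

variable {X : Type*} {R : X → X → Prop} {N n : ℕ} {pt : ℕ → ZMod n → X} {par : ℕ → ℕ}

/-- a cycle with three slots no two of which are matched -/
theorem otriple (hc : OCells R N n pt par) {k : ℕ} (h0 : 0 < k) (hk : k < N) {S : Set X}
    {M : X → X → Prop} {loc loc' : X → ℕ} {F F' : X → Set X} {ab ab' : X → Option (ZMod n)}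
    {need : ℕ → ℕ} {r : X → X} {l : List X} (hM : Mat M S)
    {p i j a b : X} (hpa : M p a) (hib : M i b) (hpi : p ≠ i) (hn : ¬ M p i)
    (hF : OFine R pt k (S \ {p, i}) (jn M p i a b) loc' F' ab' need r l) (hj : j ∈ S)
    (hjp : j ≠ p) (hji : j ≠ i) (hpk : loc p = k) (hik : loc i = k) (hjk : loc j = k)
    (hFF : ∀ q, q ≠ j → F' q ⊆ F q) (hloc : ∀ q, q ≠ j → loc' q = loc q)
    (hab : ∀ q, q ≠ j → ab' q = ab q) {α β : ZMod n} (hp : p = pt k α)
    (hrj : r j = pt (par k) β) (hαβ : β = α + 1 ∨ α = β + 1) (hpF : p ∈ F p)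
    (hiF : Cy pt k ⊆ F i) (hjF : Cy pt k ⊆ F j) (hneed : need k = 0)
    (habk : ∀ q ∈ S, loc q = k → ab q = none) :
    ∃ r' l', OFine R pt (k + 1) S M loc F ab need r' l' := by
  classical
  have h3 := hc.three
  have hjS : j ∈ S \ {p, i} := ⟨hj, by simp [hjp, hji]⟩
  have hx2 : R (r j) (pt k β) := by
    rw [hrj]
    exact hc.rung k h0 hk β
  obtain ⟨h, z0, hh1, hlen, hh2, hh3, -, -⟩ := exists_round hc hk hαβ
  rw [← hp] at hh3
  match h, hh1, hlen, hh2, hh3 with
  | [], _, hlen, _, _ => simp at hlen; omega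
  | [_], _, hlen, _, _ => simp at hlen; omega
  | [_, _], _, hlen, _, _ => simp at hlen; omega
  | p' :: h1 :: h2 :: rest, hh1, _, hh2, hh3 =>
    have hp' : p' = p := Option.some.inj hh3.head
    subst hp'
    have e1 : p' :: h1 :: h2 :: rest = [p', h1] ++ (h2 :: rest) := rfl
    rw [e1] at hh1 hh3
    obtain ⟨x, y, b1, b2, -⟩ := hh3.split (by simp) (by simp)
    have hx : x = h1 := by
      have := b1.last
      simp only [List.getLast?_cons_cons, List.getLast?_singleton, Option.some.injEq] at this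
      exact this.symm
    have hy : y = h2 := by
      have := b2.head
      simp only [List.head?_cons, Option.some.injEq] at this
      exact this.symm
    subst hx hy
    obtain ⟨nd1, nd2, nd3⟩ := List.nodup_append.1 hh1
    have hmem : ∀ z, z ∈ (y :: rest).reverse → z ∈ Cy pt k := by
      intro z hz
      rw [List.mem_reverse] at hz
      exact (hh2 z).1 (List.mem_cons_of_mem _ (List.mem_cons_of_mem _ hz))
    obtain ⟨l1, a1, a2, -⟩ := hF.sol.ins_slot hc.symm (mat_jn hM hpa hib hpi hn) hjS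
      (List.nodup_reverse.2 nd2) (fun z hz => hc.not_mem hk (hmem z hz))
      (b2.reverse hc.symm) hx2
    have hpx : p' ≠ x := by
      simp only [List.nodup_cons, List.mem_singleton] at nd1
      exact nd1.1
    obtain ⟨l2, c1, c2, -⟩ := Sol.ins_join hc.symm hM hpa hib hpi hn a1 (h := [p', x]) nd1 (by
      intro z hz hz'
      have hzk : z ∈ Cy pt k := by
        apply (hh2 z).1
        simp only [List.mem_cons, List.not_mem_nil, or_false] at hz ⊢
        rcases hz with h | h
        · exact Or.inl h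
        · exact Or.inr (Or.inl h)
      rcases hz' with hz' | hz'
      · exact hc.not_mem hk hzk hz'
      · have hz'' : z ∈ y :: rest := List.mem_reverse.1 hz'
        exact nd3 z hz z hz'' rfl) b1 hpx
    have hU : Un (Cy pt) k ∪ {z | z ∈ (y :: rest).reverse} ∪ {z | z ∈ [p', x]} =
        Un (Cy pt) (k + 1) := by
      rw [Un_succ, Set.union_assoc]
      congr 1
      ext z
      rw [← hh2 z]
      simp only [Set.mem_union, Set.mem_ofPred_eq, List.mem_reverse, List.mem_cons,
        List.not_mem_nil, or_false]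
      tauto
    rw [hU] at c1
    refine ⟨_, l2, c1, ?_, fun j' hj' => ?_⟩
    · intro q hq
      by_cases hqi : q = i
      · rw [hqi, Function.update_self]
        exact hiF ((hh2 x).1 (by simp))
      · rw [Function.update_of_ne hqi]
        by_cases hqp : q = p'
        · rw [hqp, Function.update_self]
          exact hpF
        · rw [Function.update_of_ne hqp]
          by_cases hqj : q = j
          · rw [hqj, Function.update_self]
            exact hjF ((hh2 y).1 (by simp))
          · rw [Function.update_of_ne hqj]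
            exact hFF q hqj (hF.fin q ⟨hq, by simp [hqi, hqp]⟩)
    · rcases Nat.lt_or_ge j' k with hjk' | hjk'
      · refine (hF.fr j' hjk').imp (fun u v hu hv huv => ?_) ?_
        · exact c2 u v (Or.inl ⟨j', hjk', hu⟩) (Or.inl ⟨j', hjk', hv⟩)
            (a2 u v ⟨j', hjk', hu⟩ ⟨j', hjk', hv⟩ huv)
        · rintro q ⟨hq1, hq2⟩ a ha
          have hqi : q ≠ i := by rintro rfl; omega
          have hqp : q ≠ p' := by rintro rfl; omega
          have hqj : q ≠ j := by rintro rfl; omega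
          refine ⟨⟨⟨hq1, by simp [hqi, hqp]⟩, by rw [hloc q hqj]; exact hq2⟩,
            by rw [hab q hqj]; exact ha, ?_⟩
          rw [Function.update_of_ne hqi, Function.update_of_ne hqp, Function.update_of_ne hqj]
      · obtain rfl : j' = k := by omega
        refine ⟨∅, by rw [hneed]; exact Nat.zero_le _, by simp, fun q hq a ha => ?_⟩
        rw [habk q hq.1 hq.2] at ha
        exact absurd ha (by simp)

/-- the iterated insertion of pairs -/
theorem absorb_pairs (hc : OCells R N n pt par) {k : ℕ} (h0 : 0 < k) (hk : k < N) {S : Set X}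
    {M : X → X → Prop} {r : X → X} {l : List X} {U : Set X} (hM : Mat M S)
    (hS : Sol R U S M r l) {s δ : ZMod n} {κ : ℕ} (hδ : δ = 1 ∨ δ = -1)
    (hU : ∀ b, pt k b ∈ U → ∃ t : ℕ, t ≤ κ ∧ b = s + δ * (t : ZMod n))
    (hfree : ∀ m : ℕ, κ + 2 * m + 2 < n →
      Free l M r (pt (par k) (s - δ * ((2 * m + 1 : ℕ) : ZMod n)))
        (pt (par k) (s - δ * ((2 * m + 2 : ℕ) : ZMod n)))) :
    ∀ m0 : ℕ, κ + 2 * m0 < n → ∃ l',
      Sol R (U ∪ {x | ∃ i : ℕ, 1 ≤ i ∧ i ≤ 2 * m0 ∧ x = pt k (s - δ * (i : ZMod n))}) S M r l' ∧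
      (∀ v w, Free l M r v w → (∀ m < m0, s(v, w) ≠
        s(pt (par k) (s - δ * ((2 * m + 1 : ℕ) : ZMod n)),
          pt (par k) (s - δ * ((2 * m + 2 : ℕ) : ZMod n)))) → Free l' M r v w) ∧
      ∀ m < m0, Free l' M r (pt k (s - δ * ((2 * m + 1 : ℕ) : ZMod n)))
        (pt k (s - δ * ((2 * m + 2 : ℕ) : ZMod n))) := by
  have hpk := hc.par_lt k h0 hk
  have hinj : ∀ j < N, ∀ x y : ZMod n, pt j x = pt j y → x = y :=
    fun j hj x y e => (hc.inj j j hj hj _ _ e).2
  have hpos : ∀ i i' : ℕ, i < n → i' < n → s - δ * (i : ZMod n) = s - δ * (i' : ZMod n) →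
      i = i' := by
    intro i i' hi hi' e
    have e1 : δ * (i : ZMod n) = δ * (i' : ZMod n) := by
      have : δ * (i : ZMod n) = s - (s - δ * (i : ZMod n)) := by ring
      rw [this, e]; ring
    exact cast_inj hi hi' (sign_cancel hδ e1)
  intro m0
  induction m0 with
  | zero =>
    intro _
    refine ⟨l, ?_, fun v w h _ => h, fun m hm => absurd hm (Nat.not_lt_zero _)⟩
    have e : U ∪ {x | ∃ i : ℕ, 1 ≤ i ∧ i ≤ 2 * 0 ∧ x = pt k (s - δ * (i : ZMod n))} = U := by
      ext x
      constructor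
      · rintro (hx | ⟨i, h1, h2, -⟩)
        · exact hx
        · omega
      · exact Or.inl
    rw [e]
    exact hS
  | succ m0 ih =>
    intro hm0
    obtain ⟨l', a1, a2, a3⟩ := ih (by omega)
    have hP : Free l' M r (pt (par k) (s - δ * ((2 * m0 + 1 : ℕ) : ZMod n)))
        (pt (par k) (s - δ * ((2 * m0 + 2 : ℕ) : ZMod n))) := by
      refine a2 _ _ (hfree m0 (by omega)) fun m hm e => ?_
      rw [Sym2.eq_iff] at e
      rcases e with ⟨e, -⟩ | ⟨e, -⟩
      · have := hpos _ _ (by omega) (by omega) (hinj _ (by omega) _ _ e)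
        omega
      · have := hpos _ _ (by omega) (by omega) (hinj _ (by omega) _ _ e)
        omega
    have hstep : s - δ * ((2 * m0 + 2 : ℕ) : ZMod n) =
        s - δ * ((2 * m0 + 1 : ℕ) : ZMod n) + -δ := by push_cast; ring
    have hδ' : -δ = 1 ∨ -δ = -1 := by
      rcases hδ with rfl | rfl
      · exact Or.inr rfl
      · exact Or.inl (neg_neg 1)
    have hne : pt k (s - δ * ((2 * m0 + 1 : ℕ) : ZMod n)) ≠
        pt k (s - δ * ((2 * m0 + 2 : ℕ) : ZMod n)) := by
      intro e
      have := hpos _ _ (by omega) (by omega) (hinj _ hk _ _ e)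
      omega
    -- new vertices are not in the region
    have hnew : ∀ i : ℕ, 2 * m0 < i → κ + i < n → pt k (s - δ * (i : ZMod n)) ∉
        U ∪ {x | ∃ i : ℕ, 1 ≤ i ∧ i ≤ 2 * m0 ∧ x = pt k (s - δ * (i : ZMod n))} := by
      rintro i hi hin (hx | ⟨i', h1, h2, hx⟩)
      · obtain ⟨t, ht, e⟩ := hU _ hx
        have e2 : δ * ((t + i : ℕ) : ZMod n) = δ * ((0 : ℕ) : ZMod n) := by
          have e3 : δ * ((t + i : ℕ) : ZMod n) = (s + δ * (t : ZMod n)) -
              (s - δ * (i : ZMod n)) := by push_cast; ring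
          rw [e3, ← e]
          simp
        have := cast_inj (by omega) (by omega) (sign_cancel hδ e2)
        omega
      · have := hpos _ _ (by omega) (by omega) (hinj _ hk _ _ hx)
        omega
    obtain ⟨l'', b1, b2, b3⟩ := a1.ins_free hc.symm hM hP
      (h := [pt k (s - δ * ((2 * m0 + 1 : ℕ) : ZMod n)),
        pt k (s - δ * ((2 * m0 + 2 : ℕ) : ZMod n))])
      (c := pt k (s - δ * ((2 * m0 + 1 : ℕ) : ZMod n)))
      (d := pt k (s - δ * ((2 * m0 + 2 : ℕ) : ZMod n)))
      (by simpa using hne) (by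
        intro z hz
        simp only [List.mem_cons, List.not_mem_nil, or_false] at hz
        rcases hz with rfl | rfl
        · exact hnew _ (by omega) (by omega)
        · exact hnew _ (by omega) (by omega)) ⟨by
          rw [hstep]
          simpa using hc.step hk hδ' (s - δ * ((2 * m0 + 1 : ℕ) : ZMod n)), by simp, by simp⟩
      (hc.rung k h0 hk _) (hc.symm _ _ (hc.rung k h0 hk _))
    refine ⟨l'', ?_, ?_, ?_⟩
    · have e : U ∪ {x | ∃ i : ℕ, 1 ≤ i ∧ i ≤ 2 * m0 ∧ x = pt k (s - δ * (i : ZMod n))} ∪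
          {z | z ∈ [pt k (s - δ * ((2 * m0 + 1 : ℕ) : ZMod n)),
            pt k (s - δ * ((2 * m0 + 2 : ℕ) : ZMod n))]} =
          U ∪ {x | ∃ i : ℕ, 1 ≤ i ∧ i ≤ 2 * (m0 + 1) ∧ x = pt k (s - δ * (i : ZMod n))} := by
        rw [Set.union_assoc]
        congr 1
        ext x
        simp only [Set.mem_union, Set.mem_ofPred_eq, List.mem_cons, List.not_mem_nil, or_false]
        constructor
        · rintro (⟨i, h1, h2, h3⟩ | h3 | h3)
          · exact ⟨i, h1, by omega, h3⟩
          · exact ⟨2 * m0 + 1, by omega, by omega, h3⟩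
          · exact ⟨2 * m0 + 2, by omega, by omega, h3⟩
        · rintro ⟨i, h1, h2, h3⟩
          have h4 : i ≤ 2 * m0 ∨ i = 2 * m0 + 1 ∨ i = 2 * m0 + 2 := by omega
          rcases h4 with h4 | rfl | rfl
          · exact Or.inl ⟨i, h1, h4, h3⟩
          · exact Or.inr (Or.inl h3)
          · exact Or.inr (Or.inr h3)
      rw [← e]
      exact b1
    · intro v w hvw hm
      exact b2 v w (a2 v w hvw fun m hm' => hm m (by omega)) (hm m0 (by omega))
    · intro m hm
      rcases Nat.lt_or_ge m m0 with h | h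
      · exact b2 _ _ (a3 m h) (edge_cell hc hk (by omega) (by omega) ⟨_, rfl⟩ ⟨_, rfl⟩ ⟨_, rfl⟩)
      · obtain rfl : m = m0 := by omega
        exact b3 _ _ (Or.inl ⟨[], [], by simp⟩)

open Classical in
/-- **Absorbing.** A cycle with one slot at a neighbour of a port. -/
theorem oabsorb (hc : OCells R N n pt par) {k : ℕ} (h0 : 0 < k) (hk : k < N) {S : Set X}
    {M : X → X → Prop} {loc loc' : X → ℕ} {F F' : X → Set X} {ab ab' : X → Option (ZMod n)}
    {need : ℕ → ℕ} {r : X → X} {l : List X} (hM : Mat M S)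
    (hF : OFine R pt k S M loc' F' ab' need r l) {t : X} (ht : t ∈ S) (htk : loc t = k)
    (htk' : loc' t = par k) {a : ZMod n} (hat' : ab' t = some a) (hat : ab t = none)
    (hFF : ∀ q, q ≠ t → F' q ⊆ F q) (hloc : ∀ q, q ≠ t → loc' q = loc q)
    (hab : ∀ q, q ≠ t → ab' q = ab q) (hoth : ∀ q ∈ S, loc q = par k → ab q = none)
    (hothk : ∀ q ∈ S, loc q = k → q = t) (he : pt k (a + 1) ∈ F t) (hn : need k ≤ 1) :
    ∃ r' l', OFine R pt (k + 1) S M loc F ab need r' l' := by
  have h3 := hc.three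
  have hodd := hc.odd
  have hpk := hc.par_lt k h0 hk
  have : NeZero n := ⟨by omega⟩
  obtain ⟨E, hE1, hE2, hE3⟩ := hF.fr (par k) hpk
  obtain ⟨δ, κ, hδ, hκ, hκn, hrt, hpairs⟩ := hE3 t ⟨ht, htk'⟩ a hat'
  set s := a + 1 with hs
  have hδ' : -δ = 1 ∨ -δ = -1 := by
    rcases hδ with rfl | rfl
    · exact Or.inr rfl
    · exact Or.inl (neg_neg 1)
  have hδδ : δ * δ = 1 := by
    rcases hδ with rfl | rfl
    · ring
    · ring
  -- the path back
  have hseg := seg_arc hc hk (s + δ * (κ : ZMod n)) hδ' (m := κ)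
  have e1 : s + δ * (κ : ZMod n) + -δ * (κ : ZMod n) = s := by ring
  rw [e1] at hseg
  have hmemh : ∀ x, x ∈ arc pt k (s + δ * (κ : ZMod n)) (-δ) (κ + 1) ↔
      ∃ t : ℕ, t ≤ κ ∧ x = pt k (s + δ * (t : ZMod n)) := by
    intro x
    rw [mem_arc]
    constructor
    · rintro ⟨t, ht, rfl⟩
      refine ⟨κ - t, by omega, ?_⟩
      rw [Nat.cast_sub (by omega)]
      congr 1
      ring
    · rintro ⟨t, ht, rfl⟩
      refine ⟨κ - t, by omega, ?_⟩
      rw [Nat.cast_sub (by omega)]
      congr 1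
      ring
  obtain ⟨l1, a1, a2, a3⟩ := hF.sol.ins_slot hc.symm hM ht
    (nodup_arc hc hk _ hδ' (by omega)) (fun z hz => by
      obtain ⟨t, -, rfl⟩ := (hmemh z).1 hz
      exact hc.not_mem hk ⟨_, rfl⟩) hseg (by
      rw [hrt]
      exact hc.rung k h0 hk _)
  obtain ⟨m1, hm1⟩ : ∃ m1, κ + 2 * m1 + 1 = n := by
    obtain ⟨x, hx⟩ := hκ
    obtain ⟨y, hy⟩ := hodd
    exact ⟨y - x, by omega⟩
  have hUk : ∀ j < k, ∀ x, x ∈ Cy pt j → x ∈ Un (Cy pt) k := fun j hj x hx => ⟨j, hj, hx⟩
  obtain ⟨l2, b1, b2, b3⟩ := absorb_pairs hc h0 hk hM a1 (s := s) (δ := δ) (κ := κ) hδ (by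
      rintro b (hb | hb)
      · exact absurd hb (hc.not_mem hk ⟨b, rfl⟩)
      · obtain ⟨t, ht, e⟩ := (hmemh _).1 hb
        exact ⟨t, ht, (hc.inj k k hk hk _ _ e).2⟩) (by
      intro m hm
      exact a2 _ _ (hUk _ hpk _ ⟨_, rfl⟩) (hUk _ hpk _ ⟨_, rfl⟩) (hpairs m hm).1) m1 (by omega)
  have hreg : Un (Cy pt) k ∪ {z | z ∈ arc pt k (s + δ * (κ : ZMod n)) (-δ) (κ + 1)} ∪
      {x | ∃ i : ℕ, 1 ≤ i ∧ i ≤ 2 * m1 ∧ x = pt k (s - δ * (i : ZMod n))} =
      Un (Cy pt) (k + 1) := by
    rw [Un_succ, Set.union_assoc]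
    congr 1
    ext x
    constructor
    · rintro (hx | ⟨i, -, -, rfl⟩)
      · obtain ⟨t, -, rfl⟩ := (hmemh x).1 hx
        exact ⟨_, rfl⟩
      · exact ⟨_, rfl⟩
    · rintro ⟨b, rfl⟩
      have hlt := ZMod.val_lt (δ * (b - s))
      have hval : (((δ * (b - s)).val : ℕ) : ZMod n) = δ * (b - s) := by
        rw [ZMod.natCast_val, ZMod.cast_id]
      rcases Nat.lt_or_ge κ (δ * (b - s)).val with h | h
      · right
        refine ⟨n - (δ * (b - s)).val, by omega, by omega, ?_⟩
        rw [Nat.cast_sub hlt.le, ZMod.natCast_self, hval]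
        congr 1
        have : s - δ * (0 - δ * (b - s)) = s + (δ * δ) * (b - s) := by ring
        rw [this, hδδ]
        ring
      · left
        change pt k b ∈ arc pt k (s + δ * (κ : ZMod n)) (-δ) (κ + 1)
        rw [hmemh]
        refine ⟨(δ * (b - s)).val, h, ?_⟩
        rw [hval]
        congr 1
        have : s + δ * (δ * (b - s)) = s + (δ * δ) * (b - s) := by ring
        rw [this, hδδ]
        ring
  rw [hreg] at b1
  -- the form of the pairs
  have hring : ∀ x : ZMod n, ∃ z, s(pt k x, pt k (x + -δ)) = s(pt k z, pt k (z + 1)) ∧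
      ∀ l : List X, Free l M (Function.update r t (pt k s)) (pt k x) (pt k (x + -δ)) →
        Free l M (Function.update r t (pt k s)) (pt k z) (pt k (z + 1)) := by
    intro x
    rcases hδ' with e | e
    · rw [e]
      exact ⟨x, rfl, fun _ h => h⟩
    · rw [e]
      refine ⟨x + -1, ?_, fun _ h => ?_⟩
      · rw [neg_add_cancel_right]
        exact Sym2.eq_swap
      · rw [neg_add_cancel_right]
        exact Free.symm h
  refine ⟨_, l2, b1, ?_, fun j hj => ?_⟩
  · intro q hq
    by_cases hqt : q = t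
    · rw [hqt, Function.update_self]
      exact he
    · rw [Function.update_of_ne hqt]
      exact hFF q hqt (hF.fin q hq)
  · rcases Nat.lt_or_ge j k with hjk | hjk
    · by_cases hju : j = par k
      · subst hju
        refine ⟨E, hE1, fun e he => ?_, ?_⟩
        · obtain ⟨z, h4, h5⟩ := hE2 e he
          refine ⟨z, h4, b2 _ _ (a2 _ _ (hUk _ hpk _ ⟨_, rfl⟩) (hUk _ hpk _ ⟨_, rfl⟩) h5) ?_⟩
          intro m hm e2
          apply (hpairs m (by omega)).2
          rw [← e2, ← h4]
          exact he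
        · rintro q ⟨hq1, hq2⟩ a' ha'
          rw [hoth q hq1 hq2] at ha'
          exact absurd ha' (by simp)
      · refine (hF.fr j hjk).imp (fun u v hu hv huv => ?_) ?_
        · refine b2 _ _ (a2 _ _ (hUk _ hjk _ hu) (hUk _ hjk _ hv) huv) fun m _ => ?_
          exact edge_cell hc (by omega) (by omega) hju hu ⟨_, rfl⟩ ⟨_, rfl⟩
        · rintro q ⟨hq1, hq2⟩ a' ha'
          have hqt : q ≠ t := by rintro rfl; omega
          exact ⟨⟨hq1, by rw [hloc q hqt]; exact hq2⟩, by rw [hab q hqt]; exact ha',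
            Function.update_of_ne hqt _ _⟩
    · obtain rfl : j = k := by omega
      have hdem : ∀ E : Finset (Sym2 X), ∀ q ∈ {q | q ∈ S ∧ loc q = j}, ∀ a', ab q = some a' →
          Ab pt l2 M (Function.update r t (pt j s)) j E a' (Function.update r t (pt j s) q) := by
        rintro E q ⟨hq1, hq2⟩ a' ha'
        obtain rfl := hothk q hq1 hq2
        rw [hat] at ha'
        exact absurd ha' (by simp)
      obtain ⟨x, hx⟩ : ∃ x, Free l2 M (Function.update r t (pt j s)) (pt j x) (pt j (x + -δ)) := by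
        rcases Nat.eq_zero_or_pos κ with h | h
        · have h4 := b3 0 (by omega)
          refine ⟨s - δ * ((2 * 0 + 1 : ℕ) : ZMod n), ?_⟩
          have e2 : s - δ * ((2 * 0 + 1 : ℕ) : ZMod n) + -δ =
              s - δ * ((2 * 0 + 2 : ℕ) : ZMod n) := by push_cast; ring
          rw [e2]
          exact h4
        · have h4 := nb_arc (pt := pt) (j := j) (a := s + δ * (κ : ZMod n)) (δ := -δ)
            (m := κ + 1) (t := 0) (by omega)
          have h5 := a3 _ _ h4
          have h6 := b2 _ _ h5 (fun m _ =>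
            edge_cell hc hk (by omega) (by omega) ⟨_, rfl⟩ ⟨_, rfl⟩ ⟨_, rfl⟩)
          refine ⟨s + δ * (κ : ZMod n), ?_⟩
          have e2 : s + δ * (κ : ZMod n) + -δ * ((0 : ℕ) : ZMod n) = s + δ * (κ : ZMod n) := by
            push_cast; ring
          have e3 : s + δ * (κ : ZMod n) + -δ * ((0 + 1 : ℕ) : ZMod n) =
              s + δ * (κ : ZMod n) + -δ := by push_cast; ring
          rw [e2, e3] at h6
          exact h6
      obtain ⟨z, hz1, hz2⟩ := hring x
      refine ⟨{s(pt j z, pt j (z + 1))}, by rw [Finset.card_singleton]; exact hn,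
        fun e he => ?_, hdem _⟩
      rw [Finset.mem_singleton] at he
      exact ⟨z, he, hz2 _ hx⟩

end Pool.Agent.Helper43.LO
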