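import Pool.Agent.Helper43.LT.Step

/-!
# Odd cycles along a tree: coordinates and arcs
-/

set_option autoImplicit false

namespace Pool.Agent.Helper43.LO

open Pool.Agent.Helper43.LG Pool.Agent.Helper43.LT

variable {X : Type*}

/-- Cycles of odd length `n` along a rooted tree: `pt j a` is the vertex `a` of the cycle `j`, and
`par j` is the parent of `j`. -/
structure OCells (R : X → X → Prop) (N n : ℕ) (pt : ℕ → ZMod n → X) (par : ℕ → ℕ) : Prop where
  three : 3 ≤ n
  odd : Odd n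
  symm : ∀ x y, R x y → R y x
  inj : ∀ i j, i < N → j < N → ∀ a b, pt i a = pt j b → i = j ∧ a = b
  ring : ∀ j < N, ∀ a, R (pt j a) (pt j (a + 1))
  rung : ∀ j, 0 < j → j < N → ∀ a, R (pt (par j) a) (pt j a)
  par_lt : ∀ j, 0 < j → j < N → par j < j
  two : ∀ u < N, ((Finset.range N).filter (fun j => 0 < j ∧ par j = u)).card ≤ 2

/-- the cycle `j` -/
def Cy {n : ℕ} (pt : ℕ → ZMod n → X) (j : ℕ) : Set X := {x | ∃ a, x = pt j a}

theorem mem_Cy {n : ℕ} (pt : ℕ → ZMod n → X) (j : ℕ) (a : ZMod n) : pt j a ∈ Cy pt j := ⟨a, rfl⟩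

/-- an arc -/
def arc {n : ℕ} (pt : ℕ → ZMod n → X) (j : ℕ) (a δ : ZMod n) (m : ℕ) : List X :=
  (List.range m).map (fun t : ℕ => pt j (a + δ * (t : ZMod n)))

theorem getElem_arc {n : ℕ} (pt : ℕ → ZMod n → X) (j : ℕ) (a δ : ZMod n) (m t : ℕ)
    (ht : t < (arc pt j a δ m).length) : (arc pt j a δ m)[t] = pt j (a + δ * (t : ZMod n)) := by
  simp [arc]

theorem length_arc {n : ℕ} (pt : ℕ → ZMod n → X) (j : ℕ) (a δ : ZMod n) (m : ℕ) :
    (arc pt j a δ m).length = m := by
  simp [arc]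

theorem mem_arc {n : ℕ} (pt : ℕ → ZMod n → X) (j : ℕ) (a δ : ZMod n) (m : ℕ) (x : X) :
    x ∈ arc pt j a δ m ↔ ∃ t < m, x = pt j (a + δ * (t : ZMod n)) := by
  simp only [arc, List.mem_map, List.mem_range]
  constructor
  · rintro ⟨t, h1, h2⟩
    exact ⟨t, h1, h2.symm⟩
  · rintro ⟨t, h1, h2⟩
    exact ⟨t, h1, h2.symm⟩

/-- cancelling a sign -/
theorem sign_cancel {n : ℕ} {δ : ZMod n} (hδ : δ = 1 ∨ δ = -1) {x y : ZMod n}
    (h : δ * x = δ * y) : x = y := by
  rcases hδ with rfl | rfl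
  · simpa using h
  · simpa using h

theorem cast_inj {n : ℕ} {t t' : ℕ} (ht : t < n) (ht' : t' < n)
    (h : (t : ZMod n) = (t' : ZMod n)) : t = t' := by
  have := (ZMod.natCast_eq_natCast_iff' t t' n).1 h
  rwa [Nat.mod_eq_of_lt ht, Nat.mod_eq_of_lt ht'] at this

theorem mem_infix {l : List X} {t : ℕ} (ht : t + 1 < l.length) :
    [l[t]'(by omega), l[t + 1]'ht] <:+: l := by
  refine ⟨l.take t, l.drop (t + 2), ?_⟩
  rw [List.append_assoc]
  conv_rhs => rw [← List.take_append_drop t l]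
  congr 1
  rw [List.cons_append, List.cons_append, List.nil_append]
  rw [List.drop_eq_getElem_cons (by omega : t < l.length),
    List.drop_eq_getElem_cons (by omega : t + 1 < l.length)]

section

variable {R : X → X → Prop} {N n : ℕ} {pt : ℕ → ZMod n → X} {par : ℕ → ℕ}

theorem OCells.step (hc : OCells R N n pt par) {j : ℕ} (hj : j < N) {δ : ZMod n}
    (hδ : δ = 1 ∨ δ = -1) (a : ZMod n) : R (pt j a) (pt j (a + δ)) := by
  rcases hδ with rfl | rfl
  · exact hc.ring j hj a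
  · have := hc.ring j hj (a + -1)
    rw [neg_add_cancel_right] at this
    exact hc.symm _ _ this

theorem nodup_arc (hc : OCells R N n pt par) {j : ℕ} (hj : j < N) (a : ZMod n) {δ : ZMod n}
    (hδ : δ = 1 ∨ δ = -1) {m : ℕ} (hm : m ≤ n) : (arc pt j a δ m).Nodup := by
  refine List.Nodup.map_on ?_ List.nodup_range
  intro t ht t' ht' h
  rw [List.mem_range] at ht ht'
  have h1 := (hc.inj j j hj hj _ _ h).2
  exact cast_inj (by omega) (by omega) (sign_cancel hδ (add_left_cancel h1))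

theorem seg_arc (hc : OCells R N n pt par) {j : ℕ} (hj : j < N) (a : ZMod n) {δ : ZMod n}
    (hδ : δ = 1 ∨ δ = -1) {m : ℕ} :
    Seg R (pt j a) (pt j (a + δ * (m : ZMod n))) (arc pt j a δ (m + 1)) := by
  refine ⟨?_, ?_, ?_⟩
  · rw [List.isChain_iff_getElem]
    intro t ht
    rw [getElem_arc, getElem_arc]
    have e : a + δ * ((t + 1 : ℕ) : ZMod n) = a + δ * (t : ZMod n) + δ := by push_cast; ring
    rw [e]
    exact hc.step hj hδ _
  · rw [List.head?_eq_getElem?, List.getElem?_eq_getElem (by rw [length_arc]; omega), getElem_arc]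
    simp
  · rw [List.getLast?_eq_getElem?, List.getElem?_eq_getElem (by rw [length_arc]; omega),
      getElem_arc, length_arc, Nat.add_sub_cancel]

theorem nb_arc {j : ℕ} {a δ : ZMod n} {m t : ℕ} (ht : t + 1 < m) :
    Nb (arc pt j a δ m) (pt j (a + δ * (t : ZMod n))) (pt j (a + δ * (t + 1 : ℕ))) := by
  left
  have h1 : t + 1 < (arc pt j a δ m).length := by rw [length_arc]; exact ht
  have := mem_infix h1
  rw [getElem_arc, getElem_arc] at this
  exact this

theorem OCells.ne_succ (hc : OCells R N n pt par) (a : ZMod n) : a ≠ a + 1 := by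
  intro h
  have h1 : (1 : ZMod n) = 0 := by
    have h0 : a + 1 = a + 0 := by rw [add_zero]; exact h.symm
    exact add_left_cancel h0
  have := hc.three
  have h2 : ((1 : ℕ) : ZMod n) = ((0 : ℕ) : ZMod n) := by push_cast; exact h1
  have := cast_inj (by omega) (by omega) h2
  omega

theorem OCells.ne_two (hc : OCells R N n pt par) (a : ZMod n) : a + 1 + 1 ≠ a := by
  intro h
  have h1 : (2 : ZMod n) = 0 := by
    have h0 : a + 2 = a + 0 := by
      rw [add_zero]
      calc a + 2 = a + 1 + 1 := by ring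
        _ = a := h
    exact add_left_cancel h0
  have := hc.three
  have h2 : ((2 : ℕ) : ZMod n) = ((0 : ℕ) : ZMod n) := by push_cast; exact h1
  have := cast_inj (by omega) (by omega) h2
  omega

/-- the long way round a cycle -/
theorem exists_long (hc : OCells R N n pt par) {j : ℕ} (hj : j < N) (z : ZMod n) :
    ∃ h : List X, h.Nodup ∧ h.length = n ∧ (∀ x, x ∈ h ↔ x ∈ Cy pt j) ∧
      Seg R (pt j (z + 1)) (pt j z) h ∧ ∀ b, b ≠ z → Nb h (pt j b) (pt j (b + 1)) := by
  have h3 := hc.three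
  have : NeZero n := ⟨by omega⟩
  obtain ⟨m, rfl⟩ : ∃ m, n = m + 1 := ⟨n - 1, by omega⟩
  refine ⟨arc pt j (z + 1) 1 (m + 1), nodup_arc hc hj _ (Or.inl rfl) le_rfl, length_arc _ _ _ _ _,
    ?_, ?_, ?_⟩
  · intro x
    rw [mem_arc]
    constructor
    · rintro ⟨t, -, rfl⟩
      exact ⟨_, rfl⟩
    · rintro ⟨a, rfl⟩
      refine ⟨(a - (z + 1)).val, ZMod.val_lt _, ?_⟩
      rw [ZMod.natCast_val, ZMod.cast_id]
      congr 1
      ring
  · have h1 := seg_arc hc hj (z + 1) (δ := 1) (Or.inl rfl) (m := m)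
    have e : z + 1 + 1 * (m : ZMod (m + 1)) = z := by
      have : ((m + 1 : ℕ) : ZMod (m + 1)) = 0 := ZMod.natCast_self _
      push_cast at this
      have e2 : z + 1 + 1 * (m : ZMod (m + 1)) = z + ((m : ZMod (m + 1)) + 1) := by ring
      rw [e2, this, add_zero]
    rw [e] at h1
    exact h1
  · intro b hb
    have hlt : (b - (z + 1)).val + 1 < m + 1 := by
      have h1 := ZMod.val_lt (b - (z + 1))
      by_contra hcon
      apply hb
      have h2 : (b - (z + 1)).val = m := by omega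
      have h4 : b - (z + 1) = (m : ZMod (m + 1)) := by
        have h5 : (((b - (z + 1)).val : ℕ) : ZMod (m + 1)) = b - (z + 1) := by
          rw [ZMod.natCast_val, ZMod.cast_id]
        rw [h2] at h5
        exact h5.symm
      have : ((m + 1 : ℕ) : ZMod (m + 1)) = 0 := ZMod.natCast_self _
      push_cast at this
      have e2 : b = z + ((m : ZMod (m + 1)) + 1) := by
        rw [← h4]; ring
      rw [e2, this, add_zero]
    have h1 := nb_arc (pt := pt) (j := j) (a := z + 1) (δ := 1) hlt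
    have e1 : z + 1 + 1 * (((b - (z + 1)).val : ℕ) : ZMod (m + 1)) = b := by
      rw [ZMod.natCast_val, ZMod.cast_id]; ring
    have e2 : z + 1 + 1 * ((((b - (z + 1)).val + 1 : ℕ)) : ZMod (m + 1)) = b + 1 := by
      rw [Nat.cast_add, Nat.cast_one, ZMod.natCast_val, ZMod.cast_id]; ring
    rw [e1, e2] at h1
    exact h1

/-- a path through a cycle between two neighbours -/
theorem exists_round (hc : OCells R N n pt par) {j : ℕ} (hj : j < N) {b c : ZMod n}
    (hbc : c = b + 1 ∨ b = c + 1) :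
    ∃ (h : List X) (z0 : ZMod n), h.Nodup ∧ h.length = n ∧ (∀ x, x ∈ h ↔ x ∈ Cy pt j) ∧
      Seg R (pt j b) (pt j c) h ∧ (∀ z, z ≠ z0 → Nb h (pt j z) (pt j (z + 1))) ∧
      ((z0 = b ∧ c = b + 1) ∨ (z0 = c ∧ b = c + 1)) := by
  rcases hbc with rfl | rfl
  · obtain ⟨h, h1, h2, h3, h4, h5⟩ := exists_long hc hj b
    refine ⟨h.reverse, b, List.nodup_reverse.2 h1, by rw [List.length_reverse, h2], ?_,
      h4.reverse hc.symm, fun z hz => (h5 z hz).rev, Or.inl ⟨rfl, rfl⟩⟩
    intro x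
    rw [List.mem_reverse, h3]
  · obtain ⟨h, h1, h2, h3, h4, h5⟩ := exists_long hc hj c
    exact ⟨h, c, h1, h2, h3, h4, h5, Or.inr ⟨rfl, rfl⟩⟩

theorem OCells.not_mem (hc : OCells R N n pt par) {k : ℕ} (hk : k < N) {z : X}
    (hz : z ∈ Cy pt k) : z ∉ Un (Cy pt) k := by
  rintro ⟨j, hj, b, rfl⟩
  obtain ⟨a, ha⟩ := hz
  have := (hc.inj j k (by omega) hk _ _ ha).1
  omega

/-- the form of an element in steps from a given one -/
theorem exists_even (hc : OCells R N n pt par) (s τ : ZMod n) :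
    ∃ (δ : ZMod n) (κ : ℕ), (δ = 1 ∨ δ = -1) ∧ Even κ ∧ κ < n ∧ τ = s + δ * (κ : ZMod n) := by
  have h3 := hc.three
  have : NeZero n := ⟨by omega⟩
  have h1 := ZMod.val_lt (τ - s)
  rcases Nat.even_or_odd (τ - s).val with h | h
  · refine ⟨1, (τ - s).val, Or.inl rfl, h, h1, ?_⟩
    rw [ZMod.natCast_val, ZMod.cast_id]; ring
  · have hpos : 0 < (τ - s).val := h.pos
    refine ⟨-1, n - (τ - s).val, Or.inr rfl, ?_, by omega, ?_⟩
    · exact Nat.Odd.sub_odd hc.odd h
    · rw [Nat.cast_sub h1.le, ZMod.natCast_self, ZMod.natCast_val, ZMod.cast_id]; ring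

end

end Pool.Agent.Helper43.LO
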