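import Pool.Agent.Helper43.LO.Ind
import Pool.Agent.Helper43.LT.Cover

/-!
# Odd cycles along a tree: Hamiltonian cycles through every matching of the ports
-/

set_option autoImplicit false

namespace Pool.Agent.Helper43.LO

open Pool.Agent.Helper43.LG Pool.Agent.Helper43.LT

variable {X : Type*} {R : X → X → Prop} {N n : ℕ} {pt : ℕ → ZMod n → X} {par : ℕ → ℕ}

theorem otree_cyc [Finite X] (hc : OCells R N n pt par) (hN : 0 < N) {T : Set X}
    (hsep : ∀ v i j, i < N → j < N → Anc par v i → Anc par v j →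
      ∀ p ∈ T, ∀ q ∈ T, p ∈ Cy pt i → q ∈ Cy pt j → p = q) {M : X → X → Prop}
    (hM : Mat M {x | x ∈ T ∧ x ∈ Un (Cy pt) N}) : ∃ l, Cyc R M (Un (Cy pt) N) l := by
  classical
  have hfin : ({x | x ∈ T ∧ x ∈ Un (Cy pt) N} : Set X).Finite := Set.toFinite _
  set S : Finset X := hfin.toFinset with hS
  have hSc : (S : Set X) = {x | x ∈ T ∧ x ∈ Un (Cy pt) N} := by rw [hS, Set.Finite.coe_toFinset]
  have hSm : ∀ x, x ∈ S ↔ x ∈ T ∧ x ∈ Un (Cy pt) N := by
    intro x
    rw [hS, Set.Finite.mem_toFinset]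
    rfl
  set loc : X → ℕ := fun x => if h : ∃ j < N, x ∈ Cy pt j then h.choose else 0 with hloc
  have hloc' : ∀ x, x ∈ Un (Cy pt) N → loc x < N ∧ x ∈ Cy pt (loc x) := by
    intro x hx
    have hx' : ∃ j < N, x ∈ Cy pt j := hx
    have e : loc x = hx'.choose := dif_pos hx'
    rw [e]
    exact hx'.choose_spec
  have hI : OInv N pt par T N S M loc (fun q => {q}) (fun _ => none) (fun _ => 0) := by
    refine ⟨by rw [hSc]; exact hM, ?_, ?_, ?_, ?_⟩
    · intro q hq
      exact (hloc' q ((hSm q).1 hq).2).1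
    · intro q hq
      exact Or.inr (Or.inl ⟨((hSm q).1 hq).1, (hloc' q ((hSm q).1 hq).2).2, rfl, rfl⟩)
    · intro p hp q hq hpq _ _
      obtain ⟨h1, h2⟩ := (hSm p).1 hp
      obtain ⟨h3, h4⟩ := (hSm q).1 hq
      exact hsep (loc p) (loc p) (loc q) (hloc' p h2).1 (hloc' q h4).1 (Or.inl rfl) (Or.inl hpq)
        p h1 q h3 (hloc' p h2).2 (hloc' q h4).2
    · intro v _
      simp
  obtain ⟨r, l, hF⟩ := omain hc hsep N hN le_rfl S M loc _ _ _ hI
  have hr : ∀ q ∈ S, r q = q := fun q hq => hF.fin q hq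
  have hrM : ∀ p q, M p q → r p = p ∧ r q = q := by
    intro p q hpq
    obtain ⟨h1, h2⟩ := hM.mem hpq
    exact ⟨hr p ((hSm p).2 h1), hr q ((hSm q).2 h2)⟩
  have hstep : ∀ u v, CA l u v → R u v ∨ M u v := by
    intro u v huv
    rcases hF.sol.step u v huv with h | ⟨p, q, hpq, e⟩
    · exact Or.inl h
    · right
      rw [(hrM p q hpq).1, (hrM p q hpq).2, Sym2.eq_iff] at e
      rcases e with ⟨rfl, rfl⟩ | ⟨rfl, rfl⟩
      · exact hpq
      · exact hM.symm _ _ hpq
  refine ⟨l, hF.sol.nodup, hF.sol.mem, ?_, ?_, ?_⟩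
  · exact chain_of_infix fun u v huv => hstep u v (Or.inl (Or.inl huv))
  · intro a b ha hb
    exact hstep b a (Or.inr (Or.inr ⟨ha, hb⟩))
  · intro u v huv
    have h1 := hF.sol.pairs u v huv
    rw [(hrM u v huv).1, (hrM u v huv).2] at h1
    exact h1

end Pool.Agent.Helper43.LO
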