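import Pool.Agent.Helper43.LO.Slots

/-!
# Odd cycles along a tree: the induction
-/

set_option autoImplicit false

namespace Pool.Agent.Helper43.LO

open Pool.Agent.Helper43.LG Pool.Agent.Helper43.LT

variable {X : Type*} {R : X → X → Prop} {N n : ℕ} {pt : ℕ → ZMod n → X} {par : ℕ → ℕ}

/-- a position for a slot of the last cycle; a slot with a demand is at its centre -/
theorem OInv.pick {T : Set X} {k : ℕ} {S : Finset X}
    {M : X → X → Prop} {loc : X → ℕ} {F : X → Set X} {ab : X → Option (ZMod n)} {need : ℕ → ℕ}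
    (hI : OInv N pt par T (k + 1) S M loc F ab need) {q : X} (hq : q ∈ S) (hl : loc q = k) :
    ∃ c, pt k c ∈ F q ∧ ∀ a, ab q = some a → c = a := by
  rcases hI.cls q hq with ⟨h1, h2⟩ | ⟨-, ⟨c, h1⟩, h2, h3⟩ | ⟨w, a, -, -, -, -, h1, h2⟩ |
    ⟨w, a, -, -, -, -, -, h1, h2⟩
  · refine ⟨0, ?_, fun a ha => ?_⟩
    · rw [h1, hl]
      exact ⟨0, rfl⟩
    · rw [h2] at ha
      exact absurd ha (by simp)
  · refine ⟨c, ?_, fun a ha => ?_⟩
    · rw [h2, h1, hl]
      rfl
    · rw [h3] at ha
      exact absurd ha (by simp)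
  · refine ⟨a + 1, ?_, fun a ha => ?_⟩
    · rw [h1, hl]
      exact Or.inl rfl
    · rw [h2] at ha
      exact absurd ha (by simp)
  · refine ⟨a, ?_, fun b hb => ?_⟩
    · rw [h1, hl]
      exact ⟨a, rfl⟩
    · rw [h2] at hb
      exact Option.some.inj hb

theorem omain (hc : OCells R N n pt par) {T : Set X}
    (hsep : ∀ v i j, i < N → j < N → Anc par v i → Anc par v j →
      ∀ p ∈ T, ∀ q ∈ T, p ∈ Cy pt i → q ∈ Cy pt j → p = q) :
    ∀ k, 1 ≤ k → k ≤ N → ∀ (S : Finset X) (M : X → X → Prop) (loc : X → ℕ) (F : X → Set X)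
      (ab : X → Option (ZMod n)) (need : ℕ → ℕ), OInv N pt par T k S M loc F ab need →
      ∃ r l, OFine R pt k (S : Set X) M loc F ab need r l := by
  classical
  intro k hk1
  induction k, hk1 using Nat.le_induction with
  | base =>
    intro hN S M loc F ab need hI
    obtain ⟨hn, hcase⟩ := hI.slots hc (k := 0) (by omega)
    have h0 : ∀ q ∈ S, loc q = 0 := fun q hq => by
      have := hI.loc_lt q hq
      omega
    rcases hcase with h | ⟨t, ht, -, h, -⟩ | ⟨i, hi, j, hj, hij, -, -, ho, hFj, hbj, hn1⟩ |
      ⟨p, hp, i, hi, j, hj, hpi, hpj, hij, -, -, -, ho, -⟩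
    · have hS : (S : Set X) = ∅ := by
        rw [Finset.coe_eq_empty, Finset.eq_empty_iff_forall_notMem]
        intro q hq
        exact h q hq (h0 q hq)
      have hM := hI.mat
      rw [hS] at hM ⊢
      exact obase0 hc (by omega) hM hn
    · exfalso
      obtain ⟨v, hv⟩ := (hI.mat.dom t).1 ht
      have hvS : v ∈ S := (hI.mat.mem hv).2
      have hvt : v = t := by
        by_contra hne
        exact h v hvS hne (h0 v hvS)
      subst hvt
      exact hI.mat.irr _ hv
    · have hS : (S : Set X) = {i, j} := by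
        ext q
        rw [Set.mem_insert_iff, Set.mem_singleton_iff]
        constructor
        · intro hq
          by_contra hno
          push Not at hno
          exact ho q hq hno.1 hno.2 (h0 q hq)
        · rintro (rfl | rfl)
          · exact hi
          · exact hj
      have hM := hI.mat
      obtain ⟨c, hc1, hc2⟩ := hI.pick hi (h0 i hi)
      obtain ⟨v, hv⟩ := (hM.dom i).1 hi
      have hvS := (hM.mem hv).2
      rw [hS] at hM hvS ⊢
      have hvj : v = j := by
        rw [Set.mem_insert_iff, Set.mem_singleton_iff] at hvS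
        rcases hvS with rfl | h
        · exact absurd hv (hM.irr _)
        · exact h
      subst hvj
      exact obase2 hc (by omega) hM hij hv hc1 (by rw [hFj]; exact ⟨_, rfl⟩) hn
        (fun a ha => by rw [hc2 a ha]) hbj
    · exfalso
      have hM := hI.mat
      have hall : ∀ q, q ∈ S → q = p ∨ q = i ∨ q = j := by
        intro q hq
        by_contra hno
        push Not at hno
        exact ho q hq hno.1 hno.2.1 hno.2.2 (h0 q hq)
      have key : ∀ a b c : X, a ≠ b → a ≠ c → b ≠ c → c ∈ S →
          (∀ q, q ∈ S → q = a ∨ q = b ∨ q = c) → M a b → False := by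
        intro a b c hab hac hbc hcS hall hMab
        obtain ⟨v, hv⟩ := (hM.dom c).1 hcS
        rcases hall v (hM.mem hv).2 with rfl | rfl | rfl
        · exact hbc (hM.uniq _ _ _ hMab (hM.symm _ _ hv))
        · exact hac (hM.uniq _ _ _ (hM.symm _ _ hMab) (hM.symm _ _ hv))
        · exact hM.irr _ hv
      obtain ⟨v, hv⟩ := (hM.dom p).1 hp
      rcases hall v (hM.mem hv).2 with rfl | rfl | rfl
      · exact hM.irr _ hv
      · exact key p v j hpi hpj hij hj hall hv
      · exact key p v i hpj hpi hij.symm hi (fun q hq => by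
          rcases hall q hq with h | h | h
          · exact Or.inl h
          · exact Or.inr (Or.inr h)
          · exact Or.inr (Or.inl h)) hv
  | succ k hk ih =>
    intro hkN S M loc F ab need hI
    have h0 : 0 < k := by omega
    have hkN' : k < N := by omega
    have IH := ih (by omega)
    obtain ⟨hn, hcase⟩ := hI.slots hc hkN'
    have hM := hI.mat
    have hup : ∀ v, Function.update need (par k) (need (par k) + 1) v ≤
        need v + (if v = par k then 1 else 0) := by
      intro v
      by_cases hv : v = par k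
      · rw [if_pos hv, hv, Function.update_self]
      · rw [if_neg hv, Function.update_of_ne hv, add_zero]
    have hup0 : ∀ v, need v ≤ need v + (if v = par k then 1 else 0) := fun v => Nat.le_add_right _ _
    have hpk := hc.par_lt k h0 hkN'
    -- the other direction
    have hpair : ∀ (j : ℕ) (x : X) (a : ZMod n),
        x ∈ ({pt j (a + 1), pt j (a - 1)} : Set X) →
        ∃ b, x = pt j b ∧ (a = b + 1 ∨ b = a + 1) := by
      rintro j x a (rfl | rfl)
      · exact ⟨a + 1, rfl, Or.inr rfl⟩
      · exact ⟨a - 1, rfl, Or.inl (by ring)⟩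
    rcases hcase with h | ⟨t, ht, htk, h, hnt⟩ |
      ⟨i, hi, j, hj, hij, hik, hjk, ho, hFj, hbj, hn1⟩ |
      ⟨p, hp, i, hi, j, hj, hpi, hpj, hij, hpk', hik, hjk, ho, hFp, ⟨hFi, hbi⟩, ⟨hFj, hbj⟩, hn0⟩
    · -- no slots
      obtain ⟨r, l, hF⟩ := IH _ _ _ _ _ _ (hI.stay hkN' (Finset.Subset.refl S) hM h hup)
      obtain ⟨l', h', z0, hH⟩ := ohalf0 hc h0 hkN' hM hF
      exact ⟨r, l', hH.close hc hkN' hn fun q hq hl => absurd hl (h q hq)⟩
    · -- one slot
      have hab0 : ab t = none → ∀ (r : X → X), ∀ q ∈ (S : Set X), loc q = k → ∀ a, ab q = some a →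
          r q = pt k a := by
        intro hbt r q hq hl a ha
        have hqt : q = t := by
          by_contra hne
          exact h q hq hne hl
        rw [hqt, hbt] at ha
        exact absurd ha (by simp)
      rcases hI.cls t ht with ⟨h1, h2⟩ | ⟨hT, hD, h1, h2⟩ | ⟨w, a, hw1, hw2, hw3, hw4, h1, h2⟩ |
        ⟨w, a, -, hw1, hw2, hw3, hw4, h1, h2⟩
      · -- a free slot
        obtain ⟨r, l, hF⟩ := IH _ _ _ _ _ _ (hI.move hc hsep h0 hkN' (Finset.Subset.refl S) hM
          (t := t) h (Or.inl ⟨rfl, rfl⟩))
        have hrt := hF.fin t ht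
        rw [Function.update_self] at hrt
        obtain ⟨b, hb⟩ := hrt
        obtain ⟨l', h', z0, hH, -, -, -⟩ := ohalf1 hc h0 hkN' (loc := loc) (F := F) (ab := ab) hM
          hF (t := t) ht htk (fun q hq => by rw [Function.update_of_ne hq])
          (fun q hq => Function.update_of_ne hq _ _) (fun q hq => Function.update_of_ne hq _ _)
          hb (Or.inl rfl) (by rw [h1, htk]; exact ⟨_, rfl⟩)
        exact ⟨_, l', hH.close hc hkN' hn (hab0 h2 _)⟩
      · -- a fixed slot
        rw [htk] at hD
        obtain ⟨a, hta⟩ := hD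
        obtain ⟨r, l, hF⟩ := IH _ _ _ _ _ _ (hI.move hc hsep h0 hkN' (Finset.Subset.refl S) hM
          (t := t) h (Or.inr (Or.inl ⟨⟨t, hT, ⟨a, hta⟩⟩, ⟨a, rfl⟩, rfl⟩)))
        have hrt := hF.fin t ht
        rw [Function.update_self] at hrt
        obtain ⟨b, hb, hba⟩ := hpair _ _ _ hrt
        obtain ⟨l', h', z0, hH, -, -, -⟩ := ohalf1 hc h0 hkN' (loc := loc) (F := F) (ab := ab) hM
          hF (t := t) ht htk (fun q hq => by rw [Function.update_of_ne hq])
          (fun q hq => Function.update_of_ne hq _ _) (fun q hq => Function.update_of_ne hq _ _)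
          hb hba (by rw [h1, ← hta]; rfl)
        exact ⟨_, l', hH.close hc hkN' hn (hab0 h2 _)⟩
      · -- a slot with two values
        have hFt : F t ≠ {t} := by
          rw [h1, htk]
          exact pair_ne_singleton hc hkN' a t
        have hn1 := hnt.resolve_left hFt
        rw [htk] at hw3 h1
        have hkey := hI.key hc hsep h0 hkN' (Or.inr ⟨w, hw1, hw2, hw3, hw4⟩)
        obtain ⟨r, l, hF⟩ := IH _ _ _ _ _ _ (hI.move hc hsep h0 hkN' (Finset.Subset.refl S) hM
          (t := t) h (Or.inr (Or.inr ⟨⟨w, hw1, hw2, hw3, hw4⟩, rfl, ⟨a, rfl⟩⟩)))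
        exact oabsorb hc h0 hkN' (loc := loc) (F := F) (ab := ab) hM hF (t := t) ht htk
          (Function.update_self _ _ _) (Function.update_self _ _ _) h2
          (fun q hq => by rw [Function.update_of_ne hq])
          (fun q hq => Function.update_of_ne hq _ _) (fun q hq => Function.update_of_ne hq _ _)
          (fun q hq hl => (hkey q hq hl).2)
          (fun q hq hl => by
            by_contra hne
            exact h q hq hne hl) (by rw [h1]; exact Or.inl rfl) hn1
      · -- a slot with a demand
        have hFt : F t ≠ {t} := by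
          rw [h1, htk]
          exact Cy_ne_singleton hc hkN' t
        have hn1 := hnt.resolve_left hFt
        obtain ⟨r, l, hF⟩ := IH _ _ _ _ _ _ (hI.move hc hsep h0 hkN' (Finset.Subset.refl S) hM
          (t := t) h (Or.inl ⟨rfl, rfl⟩))
        have hrt := hF.fin t ht
        rw [Function.update_self] at hrt
        obtain ⟨b, hb⟩ := hrt
        obtain ⟨l', h', z0, hH, -, hz, -⟩ := ohalf1 hc h0 hkN' (loc := loc) (F := F) (ab := ab) hM
          hF (t := t) ht htk (fun q hq => by rw [Function.update_of_ne hq])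
          (fun q hq => Function.update_of_ne hq _ _) (fun q hq => Function.update_of_ne hq _ _)
          hb (Or.inl rfl) (by rw [h1, htk]; exact ⟨_, rfl⟩)
        refine ⟨_, l', hH.close_abs hc hkN' hn1 (t := t) (Function.update_self _ _ _) hz ?_⟩
        intro q hq hl
        by_contra hne
        exact h q hq hne hl
    · -- two slots
      have hcoe : ((S \ {i, j} : Finset X) : Set X) = (S : Set X) \ {i, j} := by
        rw [Finset.coe_sdiff, Finset.coe_insert, Finset.coe_singleton]
      have hsub : (S \ {i, j} : Finset X) ⊆ S := Finset.sdiff_subset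
      have hloc' : ∀ q ∈ (S \ {i, j} : Finset X), loc q ≠ k := by
        intro q hq
        rw [Finset.mem_sdiff, Finset.mem_insert, Finset.mem_singleton, not_or] at hq
        exact ho q hq.1 hq.2.1 hq.2.2
      obtain ⟨c, hc1, hc2⟩ := hI.pick hi hik
      have habq : ∀ q ∈ (S : Set X), loc q = k → ∀ a, ab q = some a → q = i ∧ c = a := by
        intro q hq hl a ha
        by_cases hqi : q = i
        · rw [hqi] at ha
          exact ⟨hqi, hc2 a ha⟩
        · exfalso
          by_cases hqj : q = j
          · rw [hqj, hbj] at ha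
            exact absurd ha (by simp)
          · exact ho q hq hqi hqj hl
      by_cases hMij : M i j
      · have hM' := mat_er hM hMij
        obtain ⟨r, l, hF⟩ := IH _ _ _ _ _ _ (hI.stay hkN' hsub (by rw [hcoe]; exact hM') hloc'
          hup)
        rw [hcoe] at hF
        obtain ⟨l', h', z0, hH⟩ := ohalf0 hc h0 hkN' hM' hF
        have h3 := hc.three
        obtain ⟨z, hyz⟩ := exists_nb (by have := hH.len; omega) ((hH.mem (pt k c)).2 ⟨c, rfl⟩)
        have hzD := (hH.mem z).1 hyz.mem_right
        have hav : ∀ p ∈ (S : Set X) \ {i, j}, ∀ w ∈ Cy pt k, r p ≠ w := by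
          intro p hp w hw e
          exact hc.not_mem hkN' (e ▸ hw) (hF.sol.rmem p hp)
        obtain ⟨r', h'⟩ := hH.close_pair hc hkN' hM hMij hik hjk hc1 (by rw [hFj]; exact hzD) hyz
          (fun p hp => hav p hp _ ⟨c, rfl⟩) (fun p hp => hav p hp z hzD) hn1
          (fun q hq hl a ha => ⟨(habq q hq hl a ha).1, by rw [(habq q hq hl a ha).2]⟩)
        exact ⟨r', l', h'⟩
      · obtain ⟨a, ha⟩ := (hM.dom i).1 hi
        obtain ⟨b, hb⟩ := (hM.dom j).1 hj
        have hM' := mat_jn hM ha hb hij hMij
        obtain ⟨r, l, hF⟩ := IH _ _ _ _ _ _ (hI.stay hkN' hsub (by rw [hcoe]; exact hM') hloc'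
          hup0)
        rw [hcoe] at hF
        obtain ⟨r', l', h', z0, hH, hri, -⟩ := ohalf2 hc hkN' hM ha hb hij hMij hik hjk hF
          (c := c) rfl hc1 (by rw [hFj]; exact ⟨_, rfl⟩)
        refine ⟨r', l', hH.close hc hkN' hn ?_⟩
        intro q hq hl a ha
        obtain ⟨e1, e2⟩ := habq q hq hl a ha
        rw [e1, hri, e2]
    · -- three slots
      obtain ⟨hpT, hpD, hbp⟩ := hI.port hc hkN' hp hpk' hFp
      obtain ⟨α, hpα⟩ := hpD
      have hcoe : ∀ x y : X, ((S \ {x, y} : Finset X) : Set X) = (S : Set X) \ {x, y} := by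
        intro x y
        rw [Finset.coe_sdiff, Finset.coe_insert, Finset.coe_singleton]
      have hmem : ∀ x y q : X, q ∈ (S \ {x, y} : Finset X) ↔ q ∈ S ∧ q ≠ x ∧ q ≠ y := by
        intro x y q
        rw [Finset.mem_sdiff, Finset.mem_insert, Finset.mem_singleton, not_or]
      have hsub : ∀ x y : X, (S \ {x, y} : Finset X) ⊆ S := fun x y => Finset.sdiff_subset
      have habk : ∀ q ∈ (S : Set X), loc q = k → ab q = none := by
        intro q hq hl
        by_cases hqp : q = p
        · rw [hqp]; exact hbp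
        by_cases hqi : q = i
        · rw [hqi]; exact hbi
        by_cases hqj : q = j
        · rw [hqj]; exact hbj
        exact absurd hl (ho q hq hqp hqi hqj)
      have habk' : ∀ (P : X → ZMod n → Prop), ∀ q ∈ (S : Set X), loc q = k → ∀ a,
          ab q = some a → P q a := by
        intro P q hq hl a ha
        rw [habk q hq hl] at ha
        exact absurd ha (by simp)
      have h3 := hc.three
      -- the fixed slot is matched with one of the others
      have key : ∀ i j, i ∈ S → j ∈ S → p ≠ i → p ≠ j → i ≠ j → loc i = k → loc j = k →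
          (∀ q ∈ S, q ≠ p → q ≠ i → q ≠ j → loc q ≠ k) → F i = Cy pt k → F j = Cy pt k → M p i →
          ∃ r l, OFine R pt (k + 1) (S : Set X) M loc F ab need r l := by
        intro i j hi hj hpi hpj hij hik hjk ho hFi hFj hMpi
        have hM' := mat_er hM hMpi
        have hjS : j ∈ (S : Set X) \ {p, i} := by
          refine ⟨hj, ?_⟩
          simp [hpj.symm, hij.symm]
        obtain ⟨r, l, hF⟩ := IH _ _ _ _ _ _ (hI.move hc hsep h0 hkN' (hsub p i)
          (by rw [hcoe]; exact hM') (t := j) (fun q hq hqj => by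
            rw [hmem] at hq
            exact ho q hq.1 hq.2.1 hq.2.2 hqj) (Or.inl ⟨rfl, rfl⟩))
        rw [hcoe] at hF
        have hrt := hF.fin j hjS
        rw [Function.update_self] at hrt
        obtain ⟨b, hb⟩ := hrt
        -- a neighbour of `b` different from `α`
        obtain ⟨c, hbc, hcα⟩ : ∃ c, (c = b + 1 ∨ b = c + 1) ∧ c ≠ α := by
          by_cases h : b + 1 = α
          · refine ⟨b - 1, Or.inr (by ring), fun h' => ?_⟩
            apply hc.ne_two (b - 1)
            rw [sub_add_cancel, h, h']
          · exact ⟨b + 1, Or.inl rfl, h⟩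
        have hcp : pt k c ≠ p := by
          rw [hpα]
          exact fun e => hcα (hc.inj k k hkN' hkN' _ _ e).2
        obtain ⟨l', h', z0, hH, hlast, -, hav⟩ := ohalf1 hc h0 hkN' (loc := loc) (F := F)
          (ab := ab) hM' hF (t := j) hjS hjk (fun q hq => by rw [Function.update_of_ne hq])
          (fun q hq => Function.update_of_ne hq _ _) (fun q hq => Function.update_of_ne hq _ _)
          hb hbc (by rw [hFj]; exact ⟨_, rfl⟩)
        obtain ⟨z, hyz, hze⟩ := exists_nb_ne (by have := hH.len; omega) hH.nodup hlast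
          ((hH.mem p).2 ⟨α, hpα⟩) hcp.symm
        have hzD := (hH.mem z).1 hyz.mem_right
        have hav' : ∀ q ∈ (S : Set X) \ {p, i}, ∀ w ∈ Cy pt k, w ≠ pt k c →
            Function.update r j (pt k c) q ≠ w := by
          intro q hq w hw hwe hcon
          by_cases hqj : q = j
          · rw [hqj, Function.update_self] at hcon
            exact hwe hcon.symm
          · exact hav q hq hqj (by rw [hcon]; exact hw)
        obtain ⟨r', h'⟩ := hH.close_pair hc hkN' hM hMpi hpk' hik (y := p) (z := z)
          (by rw [hFp]; rfl) (by rw [hFi]; exact hzD) hyz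
          (fun q hq => hav' q hq p ⟨α, hpα⟩ hcp.symm) (fun q hq => hav' q hq z hzD hze) (by omega)
          (habk' _)
        exact ⟨r', l', h'⟩
      by_cases hMpi : M p i
      · exact key i j hi hj hpi hpj hij hik hjk ho hFi hFj hMpi
      by_cases hMpj : M p j
      · exact key j i hj hi hpj hpi hij.symm hjk hik (fun q hq h1 h2 h3 => ho q hq h1 h3 h2) hFj
          hFi hMpj
      by_cases hMij : M i j
      · have hM' := mat_er hM hMij
        have hpS : p ∈ (S : Set X) \ {i, j} := by
          refine ⟨hp, ?_⟩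
          simp [hpi, hpj]
        obtain ⟨r, l, hF⟩ := IH _ _ _ _ _ _ (hI.move hc hsep h0 hkN' (hsub i j)
          (by rw [hcoe]; exact hM') (t := p) (fun q hq hqp => by
            rw [hmem] at hq
            exact ho q hq.1 hqp hq.2.1 hq.2.2)
          (Or.inr (Or.inl ⟨⟨p, hpT, ⟨α, hpα⟩⟩, ⟨α, rfl⟩, rfl⟩)))
        rw [hcoe] at hF
        have hrt := hF.fin p hpS
        rw [Function.update_self] at hrt
        obtain ⟨b, hb, hba⟩ := hpair _ _ _ hrt
        obtain ⟨l', h', z0, hH, hlast, -, hav⟩ := ohalf1 hc h0 hkN' (loc := loc) (F := F)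
          (ab := ab) hM' hF (t := p) hpS hpk' (fun q hq => by rw [Function.update_of_ne hq])
          (fun q hq => Function.update_of_ne hq _ _) (fun q hq => Function.update_of_ne hq _ _)
          hb hba (by rw [hFp, ← hpα]; rfl)
        rw [← hpα] at hH hlast hav
        have hyp : pt k (α + 1) ≠ p := by
          rw [hpα]
          exact fun e => hc.ne_succ α (hc.inj k k hkN' hkN' _ _ e).2.symm
        obtain ⟨z, hyz, hzp⟩ := exists_nb_ne (by have := hH.len; omega) hH.nodup hlast
          ((hH.mem (pt k (α + 1))).2 ⟨_, rfl⟩) hyp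
        have hzD := (hH.mem z).1 hyz.mem_right
        have hav' : ∀ q ∈ (S : Set X) \ {i, j}, ∀ w ∈ Cy pt k, w ≠ p →
            Function.update r p p q ≠ w := by
          intro q hq w hw hwe hcon
          by_cases hqj : q = p
          · rw [hqj, Function.update_self] at hcon
            exact hwe hcon.symm
          · exact hav q hq hqj (by rw [hcon]; exact hw)
        obtain ⟨r', h'⟩ := hH.close_pair hc hkN' hM hMij hik hjk (y := pt k (α + 1)) (z := z)
          (by rw [hFi]; exact ⟨_, rfl⟩) (by rw [hFj]; exact hzD) hyz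
          (fun q hq => hav' q hq _ ⟨_, rfl⟩ hyp) (fun q hq => hav' q hq z hzD hzp) (by omega)
          (habk' _)
        exact ⟨r', l', h'⟩
      · obtain ⟨a, ha⟩ := (hM.dom p).1 hp
        obtain ⟨b, hb⟩ := (hM.dom i).1 hi
        have hM' := mat_jn hM ha hb hpi hMpi
        have hjS : j ∈ (S : Set X) \ {p, i} := by
          refine ⟨hj, ?_⟩
          simp [hpj.symm, hij.symm]
        obtain ⟨r, l, hF⟩ := IH _ _ _ _ _ _ (hI.move hc hsep h0 hkN' (hsub p i)
          (by rw [hcoe]; exact hM') (t := j) (fun q hq hqj => by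
            rw [hmem] at hq
            exact ho q hq.1 hq.2.1 hq.2.2 hqj)
          (Or.inr (Or.inl ⟨⟨p, hpT, ⟨α, hpα⟩⟩, ⟨α, rfl⟩, rfl⟩)))
        rw [hcoe] at hF
        have hrt := hF.fin j hjS
        rw [Function.update_self] at hrt
        obtain ⟨β, hβ, hβα⟩ := hpair _ _ _ hrt
        exact otriple hc h0 hkN' (loc := loc) (F := F) (ab := ab) hM ha hb hpi hMpi hF hj
          hpj.symm hij.symm hpk' hik hjk (fun q hq => by rw [Function.update_of_ne hq])
          (fun q hq => Function.update_of_ne hq _ _) (fun q hq => Function.update_of_ne hq _ _)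
          hpα hβ hβα.symm (by rw [hFp]; rfl) (by rw [hFi]) (by rw [hFj]) hn0 habk

end Pool.Agent.Helper43.LO
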