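import Pool.Agent.Helper43.LO.Window
import Pool.Agent.Helper43.LT.Inst

/-!
# Elements of odd order
-/

set_option autoImplicit false

namespace Pool.Agent.Helper43.LO

open Pool.Agent.Helper43.CQ Pool.Agent.Helper43.TW Pool.Agent.Helper43.LG Pool.Agent.Helper43.LT

variable {G : Type*} [Group G]

theorem exists_treps_of [Finite G] {A : Set G} (hA : ∀ x ∈ A, x⁻¹ ∈ A) {L H : Subgroup G}
    (hLH : L ≤ H) (hnorm : ∀ h ∈ H, ∀ x ∈ L, h * x * h⁻¹ ∈ L)
    (hgen : Subgroup.closure (A ∩ H) = H) {K : ℕ} (hK : 2 ≤ K)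
    (hKL : K * Nat.card L ≤ Nat.card H) :
    ∃ N w par c, K ≤ N ∧ TReps A L H N w par c := by
  classical
  have hn : (L.subgroupOf H).Normal := by
    refine ⟨fun x hx g => ?_⟩
    rw [Subgroup.mem_subgroupOf] at hx ⊢
    exact hnorm g g.2 x hx
  set Q := H ⧸ L.subgroupOf H with hQ
  set B : Set Q := QuotientGroup.mk' (L.subgroupOf H) '' {x : H | (x : G) ∈ A} with hB
  have hBinv : ∀ b ∈ B, b⁻¹ ∈ B := by
    rintro _ ⟨a, ha, rfl⟩
    exact ⟨a⁻¹, hA _ ha, map_inv _ a⟩
  have hBgen : Subgroup.closure B = ⊤ := by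
    have h1 : (⊤ : Subgroup H).map (QuotientGroup.mk' (L.subgroupOf H)) = ⊤ :=
      Subgroup.map_top_of_surjective _ (QuotientGroup.mk'_surjective _)
    rw [← closure_sub hgen, MonoidHom.map_closure] at h1
    exact h1
  have hcardL : 0 < Nat.card L := Nat.card_pos
  have hcardQ : Nat.card Q * Nat.card L = Nat.card H := by
    have h1 := Subgroup.card_eq_card_quotient_mul_card_subgroup (L.subgroupOf H)
    rw [h1]
    congr 1
    exact (Nat.card_congr (Subgroup.subgroupOfEquivOfLe hLH).toEquiv).symm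
  have hN : K ≤ Nat.card Q := by
    rw [← hcardQ] at hKL
    exact Nat.le_of_mul_le_mul_right hKL hcardL
  obtain ⟨e, par, e1, e2, e3, e4, e5⟩ := exists_enum B hBinv hBgen (by omega)
  have hc : ∀ j, ∃ c : H, 0 < j → j < Nat.card Q → (c : G) ∈ A ∧
      (QuotientGroup.mk c : Q) = (e (par j))⁻¹ * e j := by
    intro j
    by_cases hj : 0 < j ∧ j < Nat.card Q
    · obtain ⟨c, hc1, hc2⟩ := e4 j hj.1 hj.2
      exact ⟨c, fun _ _ => ⟨hc1, hc2⟩⟩
    · exact ⟨1, fun h1 h2 => absurd ⟨h1, h2⟩ hj⟩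
  choose c hc using hc
  refine ⟨Nat.card Q, fun j => ((e j).out : H), par, fun j => c j, hN, ⟨?_, ?_, ?_⟩, e3,
    fun j hj hjN => ⟨(hc j hj hjN).1, (c j).2⟩, ?_, e5⟩
  · intro i _
    exact ((e i).out).2
  · intro h hh
    obtain ⟨i, hi, h1⟩ := e1 (QuotientGroup.mk (⟨h, hh⟩ : H))
    refine ⟨i, hi, ?_⟩
    have h2 : (QuotientGroup.mk (e i).out : Q) = QuotientGroup.mk (⟨h, hh⟩ : H) := by
      rw [← h1]
      exact QuotientGroup.out_eq' _
    rw [QuotientGroup.eq] at h2
    exact h2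
  · intro i j hi hj h
    apply e2 i j hi hj
    rw [← QuotientGroup.out_eq' (e i), ← QuotientGroup.out_eq' (e j), QuotientGroup.eq,
      Subgroup.mem_subgroupOf]
    exact h
  · intro j hj hjN
    have h1 := (hc j hj hjN).2
    have h2 : (QuotientGroup.mk ((e (par j)).out * c j) : Q) = QuotientGroup.mk (e j).out := by
      rw [QuotientGroup.mk_mul, h1, QuotientGroup.out_eq', QuotientGroup.out_eq',
        mul_inv_cancel_left]
    rw [QuotientGroup.eq] at h2
    exact h2

/-- products along the tree -/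
theorem exists_path {par : ℕ → ℕ} {N : ℕ} (hpar : ∀ j, 0 < j → j < N → par j < j) (c : ℕ → G) :
    ∃ t : ℕ → G, t 0 = 1 ∧ ∀ j, 0 < j → j < N → t j = t (par j) * c j := by
  have key : ∀ m, m ≤ N → ∃ t : ℕ → G, t 0 = 1 ∧ ∀ j, 0 < j → j < m → t j = t (par j) * c j := by
    intro m
    induction m with
    | zero => exact fun _ => ⟨fun _ => 1, rfl, fun j _ hj => absurd hj (by omega)⟩
    | succ m ih =>
      intro hm
      obtain ⟨t, t1, t2⟩ := ih (by omega)
      rcases Nat.eq_zero_or_pos m with h | h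
      · exact ⟨t, t1, fun j h1 h2 => absurd h2 (by omega)⟩
      refine ⟨Function.update t m (t (par m) * c m), ?_, ?_⟩
      · rw [Function.update_of_ne (by omega), t1]
      · intro j h1 h2
        have h3 := hpar j h1 (by omega)
        rcases Nat.lt_or_ge j m with h4 | h4
        · rw [Function.update_of_ne (by omega), Function.update_of_ne (by omega), t2 j h1 h4]
        · obtain rfl : j = m := by omega
          rw [Function.update_self, Function.update_of_ne (by omega)]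
  exact key N le_rfl

/-- powers with exponents modulo the order -/
theorem pow_val_succ (a : G) {n : ℕ} (hn : orderOf a = n) (h2 : 2 ≤ n) (i : ZMod n) :
    a ^ (i + 1).val = a ^ i.val * a := by
  have : NeZero n := ⟨by omega⟩
  have : Fact (1 < n) := ⟨by omega⟩
  rw [ZMod.val_add, ZMod.val_one, ← pow_succ]
  have h := pow_mod_orderOf a (i.val + 1)
  rw [hn] at h
  exact h

theorem conj_mem_zpowers {a h : G} (hh : h * a * h⁻¹ = a ∨ h * a * h⁻¹ = a⁻¹) :
    ∀ x ∈ Subgroup.zpowers a, h * x * h⁻¹ ∈ Subgroup.zpowers a := by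
  rintro _ ⟨k, rfl⟩
  have e : h * a ^ k * h⁻¹ = (h * a * h⁻¹) ^ k := (conj_zpow).symm
  change h * a ^ k * h⁻¹ ∈ _
  rw [e]
  rcases hh with h1 | h1
  · rw [h1]
    exact Subgroup.zpow_mem _ (Subgroup.mem_zpowers a) k
  · rw [h1]
    exact Subgroup.zpow_mem _ (Subgroup.inv_mem _ (Subgroup.mem_zpowers a)) k

/-- the cosets of `⟨a⟩` in `H` -/
theorem ocells_odd [Finite G] {A : Set G} (hA : ∀ x ∈ A, x⁻¹ ∈ A) {a : G} (ha : a ∈ A) {n : ℕ}
    (hn : orderOf a = n) (h3 : 3 ≤ n) (hodd : Odd n) {H : Subgroup G}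
    (hinv : ∀ h ∈ H, h * a * h⁻¹ = a ∨ h * a * h⁻¹ = a⁻¹) {N : ℕ} {w : ℕ → G}
    {par : ℕ → ℕ} {c : ℕ → G} (hw : TReps A (Subgroup.zpowers a) H N w par c) (g : G) :
    ∃ pt : ℕ → ZMod n → G, OCells (fun x y => x⁻¹ * y ∈ A) N n pt par ∧
      ∀ j < N, Cy pt j = Dc (Subgroup.zpowers a) w g j := by
  classical
  have : NeZero n := ⟨by omega⟩
  obtain ⟨t, t0, ts⟩ := exists_path hw.par_lt c
  -- the products are in `H`
  have htH : ∀ j, j < N → t j ∈ H := by
    intro j
    induction j using Nat.strong_induction_on with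
    | _ j ih =>
      intro hj
      rcases Nat.eq_zero_or_pos j with h | h
      · rw [h, t0]; exact H.one_mem
      · have h1 := hw.par_lt j h hj
        rw [ts j h hj]
        exact H.mul_mem (ih _ h1 (by omega)) (hw.mem j h hj).2
  have hconj : ∀ h ∈ H, ∀ x ∈ Subgroup.zpowers a, h * x * h⁻¹ ∈ Subgroup.zpowers a :=
    fun h hh => conj_mem_zpowers (hinv h hh)
  have hconj' : ∀ h ∈ H, ∀ x ∈ Subgroup.zpowers a, h⁻¹ * x * h ∈ Subgroup.zpowers a := by
    intro h hh x hx
    have := hconj h⁻¹ (H.inv_mem hh) x hx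
    rwa [inv_inv] at this
  -- the cosets
  have hlink : ∀ j, j < N → (w 0 * t j)⁻¹ * w j ∈ Subgroup.zpowers a := by
    intro j
    induction j using Nat.strong_induction_on with
    | _ j ih =>
      intro hj
      rcases Nat.eq_zero_or_pos j with h | h
      · rw [h, t0, mul_one, inv_mul_cancel]; exact Subgroup.one_mem _
      · have h1 := hw.par_lt j h hj
        have h2 := ih _ h1 (by omega)
        have h4 := hw.link j h hj
        rw [ts j h hj]
        have e : (w 0 * (t (par j) * c j))⁻¹ * w j =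
            ((c j)⁻¹ * ((w 0 * t (par j))⁻¹ * w (par j)) * c j) * ((w (par j) * c j)⁻¹ * w j) := by
          group
        rw [e]
        exact Subgroup.mul_mem _ (hconj' _ (hw.mem j h hj).2 _ h2) h4
  set pt : ℕ → ZMod n → G := fun j i => g * w 0 * a ^ i.val * t j with hpt
  have hCy : ∀ j < N, Cy pt j = Dc (Subgroup.zpowers a) w g j := by
    intro j hj
    have hl := hlink j hj
    have htj := htH j hj
    ext x
    have hstep : x ∈ Dc (Subgroup.zpowers a) w g j ↔
        (g * w 0)⁻¹ * x * (t j)⁻¹ ∈ Subgroup.zpowers a := by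
      change (g * w j)⁻¹ * x ∈ Subgroup.zpowers a ↔ _
      have e : (g * w j)⁻¹ * x = ((w 0 * t j)⁻¹ * w j)⁻¹ *
          ((t j)⁻¹ * ((g * w 0)⁻¹ * x * (t j)⁻¹) * t j) := by group
      rw [e, Subgroup.mul_mem_cancel_left _ (Subgroup.inv_mem _ hl)]
      constructor
      · intro h
        have := hconj _ htj _ h
        have e2 : t j * ((t j)⁻¹ * ((g * w 0)⁻¹ * x * (t j)⁻¹) * t j) * (t j)⁻¹ =
            (g * w 0)⁻¹ * x * (t j)⁻¹ := by group
        rwa [e2] at this
      · intro h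
        exact hconj' _ htj _ h
    rw [hstep]
    constructor
    · rintro ⟨i, rfl⟩
      have e : (g * w 0)⁻¹ * pt j i * (t j)⁻¹ = a ^ i.val := by
        simp only [hpt]
        group
      rw [e]
      exact Subgroup.pow_mem _ (Subgroup.mem_zpowers a) _
    · intro h
      rw [mem_zpowers_iff_mem_range_orderOf, Finset.mem_image] at h
      obtain ⟨k, hk, hk'⟩ := h
      rw [Finset.mem_range, hn] at hk
      refine ⟨(k : ZMod n), ?_⟩
      simp only [hpt]
      rw [ZMod.val_natCast, Nat.mod_eq_of_lt hk, hk']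
      group
  refine ⟨pt, ⟨h3, hodd, ?_, ?_, ?_, ?_, hw.par_lt, hw.two⟩, hCy⟩
  · intro x y h
    have := hA _ h
    rwa [mul_inv_rev, inv_inv] at this
  · intro i j hi hj x y h
    have h1 : pt i x ∈ Dc (Subgroup.zpowers a) w g i := by
      rw [← hCy i hi]; exact ⟨x, rfl⟩
    have h2 : pt i x ∈ Dc (Subgroup.zpowers a) w g j := by
      rw [← hCy j hj]; exact ⟨y, h⟩
    have hij : i = j := by
      apply hw.reps.inj i j hi hj
      have e : (w i)⁻¹ * w j = ((g * w i)⁻¹ * pt i x) * ((g * w j)⁻¹ * pt i x)⁻¹ := by group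
      rw [e]
      exact Subgroup.mul_mem _ h1 (Subgroup.inv_mem _ h2)
    refine ⟨hij, ?_⟩
    subst hij
    simp only [hpt] at h
    have h5 := mul_left_cancel (mul_right_cancel h)
    have h6 := pow_injOn_Iio_orderOf (Set.mem_Iio.2 (by rw [hn]; exact ZMod.val_lt x))
      (Set.mem_Iio.2 (by rw [hn]; exact ZMod.val_lt y)) h5
    exact ZMod.val_injective n h6
  · intro j hj i
    have e : (pt j i)⁻¹ * pt j (i + 1) = (t j)⁻¹ * a * ((t j)⁻¹)⁻¹ := by
      simp only [hpt]
      rw [pow_val_succ a hn (by omega)]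
      group
    change (pt j i)⁻¹ * pt j (i + 1) ∈ A
    rw [e]
    rcases hinv _ (H.inv_mem (htH j hj)) with h | h
    · rw [h]; exact ha
    · rw [h]; exact hA a ha
  · intro j hj hjN i
    have e : (pt (par j) i)⁻¹ * pt j i = c j := by
      simp only [hpt]
      rw [ts j hj hjN]
      group
    change (pt (par j) i)⁻¹ * pt j i ∈ A
    rw [e]
    exact (hw.mem j hj hjN).1

/-- **The theorem on elements of odd order.** -/
theorem odd_theorem [Finite G] (A : Set G) (hA : ∀ x ∈ A, x⁻¹ ∈ A)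
    (hgen : Subgroup.closure A = ⊤) {a : G} (ha : a ∈ A) (hodd : Odd (orderOf a)) (h1 : a ≠ 1)
    {H : Subgroup G} (haH : a ∈ H) (hinv : ∀ h ∈ H, h * a * h⁻¹ = a ∨ h * a * h⁻¹ = a⁻¹)
    (hH : Subgroup.closure (A ∩ H) = H) (h240 : 240 * orderOf a ≤ Nat.card H) :
    ∃ l : List G, Listing A l ∧ l.prod = 1 := by
  have h3 : 3 ≤ orderOf a := by
    have e1 : orderOf a ≠ 1 := by rwa [Ne, orderOf_eq_one_iff]
    obtain ⟨m, hm⟩ := hodd
    omega
  obtain ⟨N, w, par, c, hN, hw⟩ := exists_treps_of (K := 240) hA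
    (L := Subgroup.zpowers a) (by rw [Subgroup.zpowers_le]; exact haH)
    (fun h hh => conj_mem_zpowers (hinv h hh)) hH (by norm_num) (by rwa [Nat.card_zpowers])
  obtain ⟨σ, hσ1, hσ2⟩ := group_otree A hA hgen (by rw [Subgroup.zpowers_le]; exact haH)
    hw.reps hN (fun g => ocells_odd hA ha rfl h3 hodd hinv hw g)
  exact Q238.RS.closed_listing_of_hcyc ⟨σ, ⟨Set.bijOn_univ.mpr σ.bijective,
    fun x _ y _ => hσ2 x y⟩, fun x hx => absurd (Set.mem_univ x) hx, fun x _ => hσ1 x⟩

end Pool.Agent.Helper43.LO
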