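import Pool.Agent.Helper43.LO.Absorb
import Pool.Agent.Helper43.LT.Main

/-!
# Odd cycles along a tree: the state of the slots
-/

set_option autoImplicit false

namespace Pool.Agent.Helper43.LO

open Pool.Agent.Helper43.LG Pool.Agent.Helper43.LT

variable {X : Type*} {R : X → X → Prop} {N n : ℕ} {pt : ℕ → ZMod n → X} {par : ℕ → ℕ}

/-- one cycle without slots -/
theorem obase0 (hc : OCells R N n pt par) (hN : 0 < N) {M : X → X → Prop} {loc : X → ℕ}
    {F : X → Set X} {ab : X → Option (ZMod n)} {need : ℕ → ℕ} (hM : Mat M ∅) (hn : need 0 ≤ 2) :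
    ∃ r l, OFine R pt 1 ∅ M loc F ab need r l := by
  have h3 := hc.three
  obtain ⟨l, z0, l1, l2, l3, l4, l5, -⟩ := exists_round hc hN (b := 0) (c := 0 + 1) (Or.inl rfl)
  have hR1 := hc.ring 0 hN 0
  have hU : ∀ z, z ∈ l ↔ z ∈ Un (Cy pt) 1 := by
    intro z
    rw [l3]
    constructor
    · intro hz
      exact ⟨0, by omega, hz⟩
    · rintro ⟨j, hj, hz⟩
      obtain rfl : j = 0 := by omega
      exact hz
  have hH : OHalf R pt 0 ∅ M loc F ab need id l l z0 := by
    refine ⟨⟨by simp, by simp, l1, by omega, hU, ?_, ?_⟩, by simp, ?_, l1, l2, l3, l5, ?_⟩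
    · intro u v huv
      left
      rcases huv with huv | ⟨e1, e2⟩ | ⟨e1, e2⟩
      · exact nb_chain hc.symm l4.chain huv
      · rw [l4.head] at e1
        rw [l4.last] at e2
        rw [← Option.some.inj e1, ← Option.some.inj e2]
        exact hR1
      · rw [l4.head] at e1
        rw [l4.last] at e2
        rw [← Option.some.inj e1, ← Option.some.inj e2]
        exact hc.symm _ _ hR1
    · intro p q hpq
      exact absurd hpq (hM.eq_empty p q)
    · intro j hj
      omega
    · intro u v huv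
      exact ⟨Or.inl huv, fun ⟨p, q, hpq, _⟩ => hM.eq_empty p q hpq⟩
  exact ⟨_, _, hH.close hc hN hn fun q hq => absurd hq (by simp)⟩

/-- one cycle with two slots -/
theorem obase2 (hc : OCells R N n pt par) (hN : 0 < N) {M : X → X → Prop} {loc : X → ℕ}
    {F : X → Set X} {ab : X → Option (ZMod n)} {need : ℕ → ℕ} {i j : X} (hM : Mat M {i, j})
    (hij : i ≠ j) (hMij : M i j) {c : ZMod n} (hc1 : pt 0 c ∈ F i) (hd1 : pt 0 (c + 1) ∈ F j)
    (hn : need 0 ≤ 2) (habi : ∀ a, ab i = some a → pt 0 c = pt 0 a) (habj : ab j = none) :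
    ∃ r l, OFine R pt 1 {i, j} M loc F ab need r l := by
  classical
  have h3 := hc.three
  obtain ⟨l, z0, l1, l2, l3, l4, l5, -⟩ := exists_round hc hN (b := c) (c := c + 1) (Or.inl rfl)
  have hlen : 3 ≤ l.length := by omega
  have hcd : pt 0 c ≠ pt 0 (c + 1) := fun e => hc.ne_succ c (hc.inj 0 0 hN hN _ _ e).2
  set r : X → X := fun q => if q = i then pt 0 c else pt 0 (c + 1) with hr
  have ri : r i = pt 0 c := if_pos rfl
  have rj : r j = pt 0 (c + 1) := if_neg hij.symm
  have hU : ∀ z, z ∈ l ↔ z ∈ Un (Cy pt) 1 := by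
    intro z
    rw [l3]
    constructor
    · intro hz
      exact ⟨0, by omega, hz⟩
    · rintro ⟨j, hj, hz⟩
      obtain rfl : j = 0 := by omega
      exact hz
  have hJ : ∀ p q, M p q → (p = i ∧ q = j) ∨ (p = j ∧ q = i) := by
    intro p q hpq
    obtain ⟨h1, h2⟩ := hM.mem hpq
    rw [Set.mem_insert_iff, Set.mem_singleton_iff] at h1 h2
    rcases h1 with rfl | rfl
    · rcases h2 with rfl | rfl
      · exact absurd hpq (hM.irr _)
      · exact Or.inl ⟨rfl, rfl⟩
    · rcases h2 with rfl | rfl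
      · exact Or.inr ⟨rfl, rfl⟩
      · exact absurd hpq (hM.irr _)
  have hH : OHalf R pt 0 {i, j} M loc F ab need r l l z0 := by
    refine ⟨⟨?_, ?_, l1, hlen, hU, ?_, ?_⟩, ?_, ?_, l1, l2, l3, l5, ?_⟩
    · rintro p (rfl | rfl) q (rfl | rfl) h
      · rfl
      · rw [ri, rj] at h
        exact absurd h hcd
      · rw [ri, rj] at h
        exact absurd h.symm hcd
      · rfl
    · rintro p (rfl | rfl)
      · rw [ri]; exact ⟨0, by omega, ⟨_, rfl⟩⟩
      · rw [rj]; exact ⟨0, by omega, ⟨_, rfl⟩⟩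
    · intro u v huv
      rcases huv with huv | ⟨e1, e2⟩ | ⟨e1, e2⟩
      · exact Or.inl (nb_chain hc.symm l4.chain huv)
      · right
        rw [l4.head] at e1
        rw [l4.last] at e2
        refine ⟨i, j, hMij, ?_⟩
        rw [ri, rj, Option.some.inj e1, Option.some.inj e2]
      · right
        rw [l4.head] at e1
        rw [l4.last] at e2
        refine ⟨j, i, hM.symm _ _ hMij, ?_⟩
        rw [ri, rj, Option.some.inj e1, Option.some.inj e2]
    · intro p q hpq
      rcases hJ p q hpq with ⟨rfl, rfl⟩ | ⟨rfl, rfl⟩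
      · rw [ri, rj]
        exact Or.inr (Or.inl ⟨l4.head, l4.last⟩)
      · rw [ri, rj]
        exact Or.inr (Or.inr ⟨l4.head, l4.last⟩)
    · rintro p (rfl | rfl)
      · rw [ri]; exact hc1
      · rw [rj]; exact hd1
    · intro j hj
      omega
    · intro u v huv
      refine ⟨Or.inl huv, ?_⟩
      have hno := not_nb_ends hlen l1 l4.head l4.last
      rintro ⟨p, q, hpq, e⟩
      rcases hJ p q hpq with ⟨rfl, rfl⟩ | ⟨rfl, rfl⟩
      · rw [ri, rj, Sym2.eq_iff] at e
        rcases e with ⟨rfl, rfl⟩ | ⟨rfl, rfl⟩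
        · exact hno huv.symm
        · exact hno huv
      · rw [ri, rj, Sym2.eq_iff] at e
        rcases e with ⟨rfl, rfl⟩ | ⟨rfl, rfl⟩
        · exact hno huv
        · exact hno huv.symm
  refine ⟨_, _, hH.close hc hN hn ?_⟩
  rintro q (rfl | rfl) - a ha
  · rw [ri]
    exact habi a ha
  · rw [habj] at ha
    exact absurd ha (by simp)

/-- a free slot -/
def Full (pt : ℕ → ZMod n → X) (loc : X → ℕ) (F : X → Set X) (ab : X → Option (ZMod n)) (q : X) :
    Prop := F q = Cy pt (loc q) ∧ ab q = none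

/-- `v` is `j`, its parent, or its grandparent -/
def Anc (par : ℕ → ℕ) (v j : ℕ) : Prop :=
  v = j ∨ (0 < j ∧ v = par j) ∨ (0 < j ∧ 0 < par j ∧ v = par (par j))

open Classical in
/-- the state of the slots in the first `k` cycles -/
structure OInv (N : ℕ) (pt : ℕ → ZMod n → X) (par : ℕ → ℕ) (T : Set X) (k : ℕ) (S : Finset X)
    (M : X → X → Prop) (loc : X → ℕ) (F : X → Set X) (ab : X → Option (ZMod n)) (need : ℕ → ℕ) :
    Prop where
  mat : Mat M (S : Set X)
  loc_lt : ∀ q ∈ S, loc q < k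
  cls : ∀ q ∈ S, Full pt loc F ab q ∨
    (q ∈ T ∧ q ∈ Cy pt (loc q) ∧ F q = {q} ∧ ab q = none) ∨
    (∃ w, ∃ a : ZMod n, k ≤ w ∧ w < N ∧ par w = loc q ∧ (∃ p ∈ T, p ∈ Cy pt w) ∧
      F q = {pt (loc q) (a + 1), pt (loc q) (a - 1)} ∧ ab q = none) ∨
    (∃ w, ∃ a : ZMod n, 0 < w ∧ k ≤ par w ∧ w < N ∧ par (par w) = loc q ∧
      (∃ p ∈ T, p ∈ Cy pt w) ∧ F q = Cy pt (loc q) ∧ ab q = some a)
  uniq : ∀ p ∈ S, ∀ q ∈ S, loc p = loc q → ¬ Full pt loc F ab p → ¬ Full pt loc F ab q → p = q
  cnt : ∀ v < k, (S.filter (fun q => loc q = v ∧ F q ≠ {q})).card + need v ≤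
    ((Finset.range N).filter (fun w => k ≤ w ∧ par w = v)).card

/-- the state when the last cycle has been removed -/
theorem OInv.stay {T : Set X} {k : ℕ} (hk : k < N) {S S' : Finset X}
    {M M' : X → X → Prop} {loc : X → ℕ} {F : X → Set X} {ab : X → Option (ZMod n)}
    {need need' : ℕ → ℕ}
    (hI : OInv N pt par T (k + 1) S M loc F ab need) (hS : S' ⊆ S) (hM : Mat M' (S' : Set X))
    (hloc : ∀ q ∈ S', loc q ≠ k)
    (hneed : ∀ v, need' v ≤ need v + (if v = par k then 1 else 0)) :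
    OInv N pt par T k S' M' loc F ab need' := by
  classical
  refine ⟨hM, ?_, ?_, fun p hp q hq => hI.uniq p (hS hp) q (hS hq), ?_⟩
  · intro q hq
    have h1 := hI.loc_lt q (hS hq)
    have h2 := hloc q hq
    omega
  · intro q hq
    rcases hI.cls q (hS hq) with h | h | ⟨w, a, h1, h2⟩ | ⟨w, a, h0, h1, h2⟩
    · exact Or.inl h
    · exact Or.inr (Or.inl h)
    · exact Or.inr (Or.inr (Or.inl ⟨w, a, by omega, h2⟩))
    · exact Or.inr (Or.inr (Or.inr ⟨w, a, h0, by omega, h2⟩))
  · intro v hv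
    have h1 := hI.cnt v (by omega)
    have h2 := chd_succ hk par v
    have h3 := hneed v
    have h4 : (S'.filter (fun q => loc q = v ∧ F q ≠ {q})).card ≤
        (S.filter (fun q => loc q = v ∧ F q ≠ {q})).card :=
      Finset.card_le_card (Finset.filter_subset_filter _ hS)
    omega

/-- if a slot which is not free is moved to the parent, the slots in the parent are free -/
theorem OInv.key (hc : OCells R N n pt par) {T : Set X}
    (hsep : ∀ v i j, i < N → j < N → Anc par v i → Anc par v j →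
      ∀ p ∈ T, ∀ q ∈ T, p ∈ Cy pt i → q ∈ Cy pt j → p = q)
    {k : ℕ} (h0 : 0 < k) (hk : k < N) {S : Finset X}
    {M : X → X → Prop} {loc : X → ℕ} {F : X → Set X} {ab : X → Option (ZMod n)} {need : ℕ → ℕ}
    (hI : OInv N pt par T (k + 1) S M loc F ab need)
    (hw : (∃ p ∈ T, p ∈ Cy pt k) ∨
      ∃ w, k + 1 ≤ w ∧ w < N ∧ par w = k ∧ ∃ p ∈ T, p ∈ Cy pt w) :
    ∀ q ∈ S, loc q = par k → Full pt loc F ab q := by
  have hpk := hc.par_lt k h0 hk
  have hdisj : ∀ i j, i < N → j < N → ∀ p, p ∈ Cy pt i → p ∈ Cy pt j → i = j := by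
    rintro i j hi hj p ⟨a, rfl⟩ ⟨b, hb⟩
    exact (hc.inj i j hi hj _ _ hb).1
  -- the witness
  obtain ⟨w, hwN, hwA, p0, hp0T, hp0, hwk⟩ : ∃ w, w < N ∧ Anc par (par k) w ∧
      ∃ p0 ∈ T, p0 ∈ Cy pt w ∧ (w = k ∨ (k + 1 ≤ w ∧ par w = k)) := by
    rcases hw with ⟨p, h1, h2⟩ | ⟨w, h1, h2, h3, p, h4, h5⟩
    · exact ⟨k, hk, Or.inr (Or.inl ⟨h0, rfl⟩), p, h1, h2, Or.inl rfl⟩
    · refine ⟨w, h2, Or.inr (Or.inr ⟨by omega, by omega, by rw [h3]⟩), p, h4, h5, Or.inr ⟨h1, h3⟩⟩
  intro q hq hlq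
  rcases hI.cls q hq with h | ⟨h1, h2, -⟩ | ⟨w', a, h1, h2, h3, ⟨p1, hp1T, hp1⟩, -⟩ |
    ⟨w', a, hw0, h1, h2, h3, ⟨p1, hp1T, hp1⟩, -⟩
  · exact h
  · exfalso
    rw [hlq] at h2
    have h4 := hsep (par k) w (par k) hwN (by omega) hwA (Or.inl rfl) p0 hp0T q h1 hp0 h2
    subst h4
    have := hdisj _ _ hwN (by omega) _ hp0 h2
    omega
  · exfalso
    have h4 := hsep (par k) w w' hwN h2 hwA (Or.inr (Or.inl ⟨by omega, by rw [h3, hlq]⟩)) p0 hp0T
      p1 hp1T hp0 hp1
    subst h4
    have := hdisj _ _ hwN h2 _ hp0 hp1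
    subst this
    omega
  · exfalso
    have h4 := hsep (par k) w w' hwN h2 hwA (Or.inr (Or.inr ⟨by omega, by omega,
      by rw [h3, hlq]⟩)) p0 hp0T p1 hp1T hp0 hp1
    subst h4
    have := hdisj _ _ hwN h2 _ hp0 hp1
    subst this
    rcases hwk with h5 | ⟨-, h5⟩
    · subst h5
      omega
    · omega

open Classical in
/-- the state when the last cycle has been removed and a slot has been moved to its parent -/
theorem OInv.move (hc : OCells R N n pt par) {T : Set X}
    (hsep : ∀ v i j, i < N → j < N → Anc par v i → Anc par v j →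
      ∀ p ∈ T, ∀ q ∈ T, p ∈ Cy pt i → q ∈ Cy pt j → p = q)
    {k : ℕ} (h0 : 0 < k) (hk : k < N) {S S' : Finset X}
    {M M' : X → X → Prop} {loc : X → ℕ} {F : X → Set X} {ab : X → Option (ZMod n)} {need : ℕ → ℕ}
    (hI : OInv N pt par T (k + 1) S M loc F ab need) (hS : S' ⊆ S) (hM : Mat M' (S' : Set X))
    {t : X} (hloc : ∀ q ∈ S', q ≠ t → loc q ≠ k) {F' : Set X} {ab' : Option (ZMod n)}
    (hF : (F' = Cy pt (par k) ∧ ab' = none) ∨
      ((∃ p ∈ T, p ∈ Cy pt k) ∧
        (∃ a : ZMod n, F' = {pt (par k) (a + 1), pt (par k) (a - 1)}) ∧ ab' = none) ∨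
      ((∃ w, k + 1 ≤ w ∧ w < N ∧ par w = k ∧ ∃ p ∈ T, p ∈ Cy pt w) ∧ F' = Cy pt (par k) ∧
        ∃ a, ab' = some a)) :
    OInv N pt par T k S' M' (Function.update loc t (par k)) (Function.update F t F')
      (Function.update ab t ab') need := by
  have hpk := hc.par_lt k h0 hk
  have l1 : Function.update loc t (par k) t = par k := Function.update_self _ _ _
  have l2 : ∀ q, q ≠ t → Function.update loc t (par k) q = loc q :=
    fun q hq => Function.update_of_ne hq _ _
  have f1 : Function.update F t F' t = F' := Function.update_self _ _ _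
  have f2 : ∀ q, q ≠ t → Function.update F t F' q = F q :=
    fun q hq => Function.update_of_ne hq _ _
  have b1 : Function.update ab t ab' t = ab' := Function.update_self _ _ _
  have b2 : ∀ q, q ≠ t → Function.update ab t ab' q = ab q :=
    fun q hq => Function.update_of_ne hq _ _
  have hFu : ∀ q, q ≠ t → (Full pt (Function.update loc t (par k)) (Function.update F t F')
      (Function.update ab t ab') q ↔ Full pt loc F ab q) := by
    intro q hq
    unfold Full
    rw [l2 q hq, f2 q hq, b2 q hq]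
  -- other slots in the parent are free
  have key : ∀ q ∈ S', loc q = par k → ¬ (F' = Cy pt (par k) ∧ ab' = none) →
      Full pt loc F ab q := by
    intro q hq hlq hF'
    refine hI.key hc hsep h0 hk ?_ q (hS hq) hlq
    rcases hF with h | ⟨h, -⟩ | ⟨h, -⟩
    · exact absurd h hF'
    · exact Or.inl h
    · exact Or.inr h
  have hFt : Full pt (Function.update loc t (par k)) (Function.update F t F')
      (Function.update ab t ab') t ↔ (F' = Cy pt (par k) ∧ ab' = none) := by
    unfold Full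
    rw [l1, f1, b1]
  refine ⟨hM, ?_, ?_, ?_, ?_⟩
  · intro q hq
    by_cases hqt : q = t
    · rw [hqt, l1]; exact hpk
    · rw [l2 q hqt]
      have h1 := hI.loc_lt q (hS hq)
      have h2 := hloc q hq hqt
      omega
  · intro q hq
    by_cases hqt : q = t
    · subst hqt
      rcases hF with h | ⟨h1, ⟨a, h2⟩, h3⟩ | ⟨⟨w, h1, h2, h3, h4⟩, h5, a, h6⟩
      · exact Or.inl (hFt.2 h)
      · refine Or.inr (Or.inr (Or.inl ⟨k, a, le_rfl, hk, by rw [l1], h1, ?_, ?_⟩))
        · rw [f1, l1, h2]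
        · rw [b1, h3]
      · refine Or.inr (Or.inr (Or.inr ⟨w, a, by omega, by omega, h2, by rw [h3, l1], h4, ?_, ?_⟩))
        · rw [f1, l1, h5]
        · rw [b1, h6]
    · rw [hFu q hqt, l2 q hqt, f2 q hqt, b2 q hqt]
      rcases hI.cls q (hS hq) with h | h | ⟨w, a, h1, h2⟩ | ⟨w, a, h0, h1, h2⟩
      · exact Or.inl h
      · exact Or.inr (Or.inl h)
      · exact Or.inr (Or.inr (Or.inl ⟨w, a, by omega, h2⟩))
      · exact Or.inr (Or.inr (Or.inr ⟨w, a, h0, by omega, h2⟩))
  · intro p hp q hq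
    by_cases hpt : p = t
    · by_cases hqt : q = t
      · intro _ _ _
        rw [hpt, hqt]
      · rw [hpt, hFt, hFu q hqt, l1, l2 q hqt]
        intro h1 h2 h3
        exact absurd (key q hq h1.symm h2) h3
    · by_cases hqt : q = t
      · rw [hqt, hFt, hFu p hpt, l1, l2 p hpt]
        intro h1 h2 h3
        exact absurd (key p hp h1 h3) h2
      · rw [hFu q hqt, hFu p hpt, l2 p hpt, l2 q hqt]
        exact hI.uniq p (hS hp) q (hS hq)
  · intro v hv
    have h1 := hI.cnt v (by omega)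
    have h2 := chd_succ hk par v
    have h4 : (S'.filter (fun q => Function.update loc t (par k) q = v ∧
        Function.update F t F' q ≠ {q})).card ≤
        (S.filter (fun q => loc q = v ∧ F q ≠ {q})).card + (if v = par k then 1 else 0) := by
      by_cases hv' : v = par k
      · rw [if_pos hv']
        refine le_trans (Finset.card_le_card (t := insert t
          (S.filter (fun q => loc q = v ∧ F q ≠ {q}))) fun q hq => ?_) (Finset.card_insert_le _ _)
        obtain ⟨a1, a2, a3⟩ := Finset.mem_filter.1 hq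
        rw [Finset.mem_insert]
        by_cases hqt : q = t
        · exact Or.inl hqt
        · right
          rw [l2 q hqt] at a2
          rw [f2 q hqt] at a3
          exact Finset.mem_filter.2 ⟨hS a1, a2, a3⟩
      · rw [if_neg hv', add_zero]
        refine Finset.card_le_card fun q hq => ?_
        obtain ⟨a1, a2, a3⟩ := Finset.mem_filter.1 hq
        by_cases hqt : q = t
        · rw [hqt, l1] at a2
          exact absurd a2.symm hv'
        · rw [l2 q hqt] at a2
          rw [f2 q hqt] at a3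
          exact Finset.mem_filter.2 ⟨hS a1, a2, a3⟩
    omega

end Pool.Agent.Helper43.LO
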