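import Pool.Agent.Helper43.LO.Main

/-!
# Odd cycles along a tree: the slots of the last cycle
-/

set_option autoImplicit false

namespace Pool.Agent.Helper43.LO

open Pool.Agent.Helper43.LG Pool.Agent.Helper43.LT

variable {X : Type*} {R : X → X → Prop} {N n : ℕ} {pt : ℕ → ZMod n → X} {par : ℕ → ℕ}

theorem Cy_ne_singleton (hc : OCells R N n pt par) {k : ℕ} (hk : k < N) (q : X) :
    Cy pt k ≠ {q} := by
  intro h
  have h1 : pt k 0 ∈ Cy pt k := ⟨0, rfl⟩
  have h2 : pt k (0 + 1) ∈ Cy pt k := ⟨0 + 1, rfl⟩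
  rw [h, Set.mem_singleton_iff] at h1 h2
  exact hc.ne_succ 0 (hc.inj k k hk hk _ _ (h1.trans h2.symm)).2

theorem pair_ne_singleton (hc : OCells R N n pt par) {k : ℕ} (hk : k < N) (a : ZMod n) (q : X) :
    ({pt k (a + 1), pt k (a - 1)} : Set X) ≠ {q} := by
  intro h
  have h1 : pt k (a + 1) ∈ ({pt k (a + 1), pt k (a - 1)} : Set X) := Or.inl rfl
  have h2 : pt k (a - 1) ∈ ({pt k (a + 1), pt k (a - 1)} : Set X) := Or.inr rfl
  rw [h, Set.mem_singleton_iff] at h1 h2
  have h3 := (hc.inj k k hk hk _ _ (h1.trans h2.symm)).2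
  apply hc.ne_two (a - 1)
  rw [sub_add_cancel]
  exact h3

/-- the slots of the last cycle which are fixed are ports -/
theorem OInv.port (hc : OCells R N n pt par) {T : Set X} {k : ℕ} (hk : k < N) {S : Finset X}
    {M : X → X → Prop} {loc : X → ℕ} {F : X → Set X} {ab : X → Option (ZMod n)} {need : ℕ → ℕ}
    (hI : OInv N pt par T (k + 1) S M loc F ab need) {q : X} (hq : q ∈ S) (hl : loc q = k)
    (hF : F q = {q}) : q ∈ T ∧ q ∈ Cy pt k ∧ ab q = none := by
  rcases hI.cls q hq with ⟨h, -⟩ | ⟨h1, h2, -, h4⟩ | ⟨w, a, -, -, -, -, h, -⟩ |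
    ⟨w, a, -, -, -, -, -, h, -⟩
  · rw [hF, hl] at h
    exact absurd h.symm (Cy_ne_singleton hc hk q)
  · rw [hl] at h2
    exact ⟨h1, h2, h4⟩
  · rw [hF, hl] at h
    exact absurd h.symm (pair_ne_singleton hc hk a q)
  · rw [hF, hl] at h
    exact absurd h.symm (Cy_ne_singleton hc hk q)

/-- the possible slots of the last cycle -/
theorem OInv.slots (hc : OCells R N n pt par) {T : Set X} {k : ℕ} (hk : k < N) {S : Finset X}
    {M : X → X → Prop} {loc : X → ℕ} {F : X → Set X} {ab : X → Option (ZMod n)} {need : ℕ → ℕ}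
    (hI : OInv N pt par T (k + 1) S M loc F ab need) :
    need k ≤ 2 ∧ ((∀ q ∈ S, loc q ≠ k) ∨
      (∃ t ∈ S, loc t = k ∧ (∀ q ∈ S, q ≠ t → loc q ≠ k) ∧ (F t = {t} ∨ need k ≤ 1)) ∨
      (∃ i ∈ S, ∃ j ∈ S, i ≠ j ∧ loc i = k ∧ loc j = k ∧ (∀ q ∈ S, q ≠ i → q ≠ j → loc q ≠ k) ∧
        F j = Cy pt k ∧ ab j = none ∧ need k ≤ 1) ∨
      (∃ p ∈ S, ∃ i ∈ S, ∃ j ∈ S, p ≠ i ∧ p ≠ j ∧ i ≠ j ∧ loc p = k ∧ loc i = k ∧ loc j = k ∧
        (∀ q ∈ S, q ≠ p → q ≠ i → q ≠ j → loc q ≠ k) ∧ F p = {p} ∧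
        (F i = Cy pt k ∧ ab i = none) ∧ (F j = Cy pt k ∧ ab j = none) ∧ need k = 0)) := by
  classical
  have h1 := hI.cnt k (by omega)
  have h2 : ((Finset.range N).filter (fun w => k + 1 ≤ w ∧ par w = k)).card ≤ 2 := by
    refine le_trans (Finset.card_le_card fun w hw => ?_) (hc.two k hk)
    obtain ⟨a1, a2, a3⟩ := Finset.mem_filter.1 hw
    exact Finset.mem_filter.2 ⟨a1, by omega, a3⟩
  refine ⟨by omega, ?_⟩
  set Sk := S.filter (fun q => loc q = k) with hSk
  have hmem : ∀ q, q ∈ Sk ↔ q ∈ S ∧ loc q = k := fun q => by rw [hSk, Finset.mem_filter]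
  have hfull : ∀ q ∈ Sk, F q = Cy pt k → F q ≠ {q} := by
    intro q hq h h'
    rw [h] at h'
    exact Cy_ne_singleton hc hk q h'
  have hfix : ∀ q ∈ Sk, F q = {q} → ¬ (F q = Cy pt k ∧ ab q = none) :=
    fun q hq h h' => hfull q hq h'.1 h
  -- at most one slot is not free
  have huniq : ∀ p ∈ Sk, ∀ q ∈ Sk, p ≠ q → (F p = Cy pt k ∧ ab p = none) ∨
      (F q = Cy pt k ∧ ab q = none) := by
    intro p hp q hq hpq
    by_contra hno
    rw [not_or] at hno
    obtain ⟨p1, p2⟩ := (hmem p).1 hp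
    obtain ⟨q1, q2⟩ := (hmem q).1 hq
    refine hpq (hI.uniq p p1 q q1 (p2.trans q2.symm) ?_ ?_)
    · intro h
      apply hno.1
      rw [← p2]
      exact h
    · intro h
      apply hno.2
      rw [← q2]
      exact h
  set nf := S.filter (fun q => loc q = k ∧ F q ≠ {q}) with hnf
  have hnfm : ∀ q, q ∈ nf ↔ q ∈ Sk ∧ F q ≠ {q} := fun q => by
    rw [hnf, Finset.mem_filter, hmem]; tauto
  have hle : ∀ n, Sk.card = n → n = 0 ∨ n = 1 ∨ n = 2 ∨ n = 3 := by
    intro n hn
    have h3 : Sk.card ≤ nf.card + 1 := by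
      have h4 : Sk ⊆ nf ∪ Sk.filter (fun q => F q = {q}) := by
        intro q hq
        by_cases h : F q = {q}
        · exact Finset.mem_union_right _ (Finset.mem_filter.2 ⟨hq, h⟩)
        · exact Finset.mem_union_left _ ((hnfm q).2 ⟨hq, h⟩)
      have h5 : (Sk.filter (fun q => F q = {q})).card ≤ 1 := by
        rw [Finset.card_le_one]
        intro p hp q hq
        obtain ⟨p1, p2⟩ := Finset.mem_filter.1 hp
        obtain ⟨q1, q2⟩ := Finset.mem_filter.1 hq
        by_contra hpq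
        rcases huniq p p1 q q1 hpq with h | h
        · exact hfix p p1 p2 h
        · exact hfix q q1 q2 h
      have h6 := Finset.card_le_card h4
      have h7 := Finset.card_union_le nf (Sk.filter (fun q => F q = {q}))
      omega
    omega
  have hother : ∀ q ∈ S, q ∉ Sk → loc q ≠ k := fun q hq h h' => h ((hmem q).2 ⟨hq, h'⟩)
  have hneed : ∀ q ∈ Sk, F q ≠ {q} → need k ≤ 1 := by
    intro q hq h4
    have : 0 < nf.card := Finset.card_pos.2 ⟨q, (hnfm q).2 ⟨hq, h4⟩⟩
    omega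
  rcases hle _ rfl with h3 | h3 | h3 | h3
  · left
    intro q hq
    apply hother q hq
    rw [Finset.card_eq_zero] at h3
    rw [h3]
    simp
  · right; left
    obtain ⟨t, ht⟩ := Finset.card_eq_one.1 h3
    have htS : t ∈ Sk := by rw [ht]; simp
    refine ⟨t, ((hmem t).1 htS).1, ((hmem t).1 htS).2, fun q hq hqt => hother q hq ?_, ?_⟩
    · rw [ht, Finset.mem_singleton]
      exact hqt
    · by_cases h : F t = {t}
      · exact Or.inl h
      · exact Or.inr (hneed t htS h)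
  · right; right; left
    obtain ⟨i, j, hij, hS⟩ := Finset.card_eq_two.1 h3
    have hiS : i ∈ Sk := by rw [hS]; simp
    have hjS : j ∈ Sk := by rw [hS]; simp
    have ho : ∀ q ∈ S, q ≠ i → q ≠ j → loc q ≠ k := by
      intro q hq h4 h5
      apply hother q hq
      rw [hS, Finset.mem_insert, Finset.mem_singleton]
      tauto
    rcases huniq i hiS j hjS hij with h4 | h4
    · exact ⟨j, ((hmem j).1 hjS).1, i, ((hmem i).1 hiS).1, hij.symm, ((hmem j).1 hjS).2,
        ((hmem i).1 hiS).2, fun q hq h5 h6 => ho q hq h6 h5, h4.1, h4.2,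
        hneed i hiS (hfull i hiS h4.1)⟩
    · exact ⟨i, ((hmem i).1 hiS).1, j, ((hmem j).1 hjS).1, hij, ((hmem i).1 hiS).2,
        ((hmem j).1 hjS).2, ho, h4.1, h4.2, hneed j hjS (hfull j hjS h4.1)⟩
  · right; right; right
    obtain ⟨x, y, z, hxy, hxz, hyz, hS⟩ := Finset.card_eq_three.1 h3
    -- one of them is fixed
    have key : ∀ p i j, Sk = {p, i, j} → p ≠ i → p ≠ j → i ≠ j → F p = {p} →
        (∃ p ∈ S, ∃ i ∈ S, ∃ j ∈ S, p ≠ i ∧ p ≠ j ∧ i ≠ j ∧ loc p = k ∧ loc i = k ∧ loc j = k ∧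
        (∀ q ∈ S, q ≠ p → q ≠ i → q ≠ j → loc q ≠ k) ∧ F p = {p} ∧
        (F i = Cy pt k ∧ ab i = none) ∧ (F j = Cy pt k ∧ ab j = none) ∧ need k = 0) := by
      intro p i j hS hpi hpj hij hFp
      have hpS : p ∈ Sk := by rw [hS]; simp
      have hiS : i ∈ Sk := by rw [hS]; simp
      have hjS : j ∈ Sk := by rw [hS]; simp
      have e1 := (huniq p hpS i hiS hpi).resolve_left (hfix p hpS hFp)
      have e2 := (huniq p hpS j hjS hpj).resolve_left (hfix p hpS hFp)
      refine ⟨p, ((hmem p).1 hpS).1, i, ((hmem i).1 hiS).1, j, ((hmem j).1 hjS).1, hpi, hpj, hij,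
        ((hmem p).1 hpS).2, ((hmem i).1 hiS).2, ((hmem j).1 hjS).2, ?_, hFp, e1, e2, ?_⟩
      · intro q hq h4 h5 h6
        apply hother q hq
        rw [hS]
        simp [h4, h5, h6]
      · have h7 : ({i, j} : Finset X) ⊆ nf := by
          intro q hq
          rw [Finset.mem_insert, Finset.mem_singleton] at hq
          rcases hq with rfl | rfl
          · exact (hnfm _).2 ⟨hiS, hfull _ hiS e1.1⟩
          · exact (hnfm _).2 ⟨hjS, hfull _ hjS e2.1⟩
        have h8 := Finset.card_le_card h7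
        rw [Finset.card_pair hij] at h8
        omega
    by_cases hx : F x = {x}
    · exact key x y z hS hxy hxz hyz hx
    by_cases hy : F y = {y}
    · refine key y x z ?_ hxy.symm hyz hxz hy
      rw [hS]
      exact Finset.insert_comm x y {z}
    by_cases hz : F z = {z}
    · refine key z x y ?_ hxz.symm hyz.symm hxy hz
      rw [hS]
      ext q
      simp only [Finset.mem_insert, Finset.mem_singleton]
      tauto
    · exfalso
      have h7 : Sk ⊆ nf := by
        intro q hq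
        refine (hnfm q).2 ⟨hq, ?_⟩
        rw [hS] at hq
        simp only [Finset.mem_insert, Finset.mem_singleton] at hq
        rcases hq with rfl | rfl | rfl
        · exact hx
        · exact hy
        · exact hz
      have h8 := Finset.card_le_card h7
      omega

end Pool.Agent.Helper43.LO
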