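import Pool.Agent.Helper43.LO.Arc

/-!
# Odd cycles along a tree: one more cycle
-/

set_option autoImplicit false

namespace Pool.Agent.Helper43.LO

open Pool.Agent.Helper43.LG Pool.Agent.Helper43.LT

variable {X : Type*} {R : X → X → Prop} {N n : ℕ} {pt : ℕ → ZMod n → X} {par : ℕ → ℕ}

theorem Free.symm {l : List X} {M : X → X → Prop} {r : X → X} {u v : X} (h : Free l M r u v) :
    Free l M r v u := ⟨h.1.symm, by rw [Sym2.eq_swap]; exact h.2⟩

theorem edge_inj (hc : OCells R N n pt par) {j : ℕ} (hj : j < N) {z z' : ZMod n}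
    (h : s(pt j z, pt j (z + 1)) = s(pt j z', pt j (z' + 1))) : z = z' := by
  rw [Sym2.eq_iff] at h
  rcases h with ⟨h1, -⟩ | ⟨h1, h2⟩
  · exact (hc.inj j j hj hj _ _ h1).2
  · have e1 := (hc.inj j j hj hj _ _ h1).2
    have e2 := (hc.inj j j hj hj _ _ h2).2
    exfalso
    rw [e1] at e2
    exact hc.ne_two z' e2

/-- The demand of a slot at the vertex `x` of the cycle `j`: the vertices which are not on the way
from `x` to `a + 1` in one of the directions, with an even number of steps, form pairs of neighbours,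
and these pairs are free and not in `E`. -/
def Ab (pt : ℕ → ZMod n → X) (l : List X) (M : X → X → Prop) (r : X → X) (j : ℕ)
    (E : Finset (Sym2 X)) (a : ZMod n) (x : X) : Prop :=
  ∃ (δ : ZMod n) (κ : ℕ), (δ = 1 ∨ δ = -1) ∧ Even κ ∧ κ < n ∧
    x = pt j (a + 1 + δ * (κ : ZMod n)) ∧ ∀ m : ℕ, κ + 2 * m + 2 < n →
      Free l M r (pt j (a + 1 - δ * ((2 * m + 1 : ℕ) : ZMod n)))
        (pt j (a + 1 - δ * ((2 * m + 2 : ℕ) : ZMod n))) ∧
      s(pt j (a + 1 - δ * ((2 * m + 1 : ℕ) : ZMod n)),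
        pt j (a + 1 - δ * ((2 * m + 2 : ℕ) : ZMod n))) ∉ E

/-- the demand on the cycle `j` -/
def Dm (pt : ℕ → ZMod n → X) (l : List X) (M : X → X → Prop) (r : X → X) (j c : ℕ) (Sj : Set X)
    (ab : X → Option (ZMod n)) : Prop :=
  ∃ E : Finset (Sym2 X), c ≤ E.card ∧
    (∀ e ∈ E, ∃ z, e = s(pt j z, pt j (z + 1)) ∧ Free l M r (pt j z) (pt j (z + 1))) ∧
    ∀ q ∈ Sj, ∀ a, ab q = some a → Ab pt l M r j E a (r q)

theorem Ab.imp {l l' : List X} {M M' : X → X → Prop} {r r' : X → X} {j : ℕ}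
    {E E' : Finset (Sym2 X)} {a : ZMod n} {x : X} (h : Ab pt l M r j E a x) (hE : E' ⊆ E)
    (H : ∀ u v, u ∈ Cy pt j → v ∈ Cy pt j → Free l M r u v → s(u, v) ∉ E →
      Free l' M' r' u v) :
    Ab pt l' M' r' j E' a x := by
  obtain ⟨δ, κ, h1, h2, h3, h4, h5⟩ := h
  refine ⟨δ, κ, h1, h2, h3, h4, fun m hm => ?_⟩
  obtain ⟨h6, h7⟩ := h5 m hm
  exact ⟨H _ _ ⟨_, rfl⟩ ⟨_, rfl⟩ h6 h7, fun h8 => h7 (hE h8)⟩

theorem Dm.imp {l l' : List X} {M M' : X → X → Prop} {r r' : X → X} {j c : ℕ} {Sj Sj' : Set X}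
    {ab ab' : X → Option (ZMod n)} (h : Dm pt l M r j c Sj ab)
    (H : ∀ u v, u ∈ Cy pt j → v ∈ Cy pt j → Free l M r u v → Free l' M' r' u v)
    (hS : ∀ q ∈ Sj', ∀ a, ab' q = some a → q ∈ Sj ∧ ab q = some a ∧ r' q = r q) :
    Dm pt l' M' r' j c Sj' ab' := by
  obtain ⟨E, h1, h2, h3⟩ := h
  refine ⟨E, h1, fun e he => ?_, fun q hq a ha => ?_⟩
  · obtain ⟨z, h4, h5⟩ := h2 e he
    exact ⟨z, h4, H _ _ ⟨_, rfl⟩ ⟨_, rfl⟩ h5⟩
  · obtain ⟨h4, h5, h6⟩ := hS q hq a ha
    rw [h6]
    exact (h3 q h4 a h5).imp (Finset.Subset.refl E) fun u v hu hv huv _ => H u v hu hv huv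

/-- a solution for the first `k` cycles -/
structure OFine (R : X → X → Prop) (pt : ℕ → ZMod n → X) (k : ℕ) (S : Set X)
    (M : X → X → Prop) (loc : X → ℕ) (F : X → Set X) (ab : X → Option (ZMod n)) (need : ℕ → ℕ)
    (r : X → X) (l : List X) : Prop where
  sol : Sol R (Un (Cy pt) k) S M r l
  fin : ∀ q ∈ S, r q ∈ F q
  fr : ∀ j < k, Dm pt l M r j (need j) {q | q ∈ S ∧ loc q = j} ab

/-- a solution for the first `k + 1` cycles which contains the path `h` of the cycle `k` -/
structure OHalf (R : X → X → Prop) (pt : ℕ → ZMod n → X) (k : ℕ) (S : Set X)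
    (M : X → X → Prop) (loc : X → ℕ) (F : X → Set X) (ab : X → Option (ZMod n)) (need : ℕ → ℕ)
    (r : X → X) (l h : List X) (z0 : ZMod n) : Prop where
  sol : Sol R (Un (Cy pt) (k + 1)) S M r l
  fin : ∀ q ∈ S, r q ∈ F q
  fr : ∀ j < k, Dm pt l M r j (need j) {q | q ∈ S ∧ loc q = j} ab
  nodup : h.Nodup
  len : h.length = n
  mem : ∀ z, z ∈ h ↔ z ∈ Cy pt k
  nb : ∀ z, z ≠ z0 → Nb h (pt k z) (pt k (z + 1))
  free : ∀ u v, Nb h u v → Free l M r u v

theorem edge_cell (hc : OCells R N n pt par) {i j : ℕ} (hi : i < N) (hj : j < N) (hij : i ≠ j)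
    {u v : X} (hu : u ∈ Cy pt i) {x y : X} (hx : x ∈ Cy pt j) (hy : y ∈ Cy pt j) :
    s(u, v) ≠ s(x, y) := by
  obtain ⟨a, rfl⟩ := hu
  obtain ⟨b, rfl⟩ := hx
  obtain ⟨c, rfl⟩ := hy
  intro e
  rw [Sym2.eq_iff] at e
  rcases e with ⟨e, -⟩ | ⟨e, -⟩
  · exact hij (hc.inj i j hi hj _ _ e).1
  · exact hij (hc.inj i j hi hj _ _ e).1

open Classical in
/-- inserting a cycle without slots -/
theorem ohalf0 (hc : OCells R N n pt par) {k : ℕ} (h0 : 0 < k) (hk : k < N) {S : Set X}
    {M : X → X → Prop} {loc : X → ℕ} {F : X → Set X} {ab : X → Option (ZMod n)} {need : ℕ → ℕ}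
    {r : X → X} {l : List X} (hM : Mat M S)
    (hF : OFine R pt k S M loc F ab (Function.update need (par k) (need (par k) + 1)) r l) :
    ∃ l' h z0, OHalf R pt k S M loc F ab need r l' h z0 := by
  have hpk := hc.par_lt k h0 hk
  obtain ⟨E, hE1, hE2, hE3⟩ := hF.fr (par k) hpk
  rw [Function.update_self] at hE1
  obtain ⟨e0, he0⟩ : E.Nonempty := Finset.card_pos.1 (by omega)
  obtain ⟨z, rfl, hxy⟩ := hE2 e0 he0
  obtain ⟨h, z0, hh1, hh2, hh3, hh4, hh5, -⟩ := exists_round hc hk (b := z) (c := z + 1)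
    (Or.inl rfl)
  obtain ⟨l', a1, a2, a3⟩ := hF.sol.ins_free hc.symm hM hxy hh1
    (fun z hz => hc.not_mem hk ((hh3 z).1 hz)) hh4 (hc.rung k h0 hk z)
    (hc.symm _ _ (hc.rung k h0 hk (z + 1)))
  rw [union_eq hh3] at a1
  refine ⟨l', h, z0, a1, hF.fin, ?_, hh1, hh2, hh3, hh5, a3⟩
  intro j hj
  by_cases hju : j = par k
  · subst hju
    refine ⟨E.erase s(pt (par k) z, pt (par k) (z + 1)), ?_, fun e he => ?_, fun q hq a ha => ?_⟩
    · rw [Finset.card_erase_of_mem he0]
      omega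
    · obtain ⟨b1, b2⟩ := Finset.mem_erase.1 he
      obtain ⟨w, rfl, c4⟩ := hE2 e b2
      exact ⟨w, rfl, a2 _ _ c4 b1⟩
    · refine (hE3 q hq a ha).imp (Finset.erase_subset _ _) fun u v _ _ huv hnE => ?_
      exact a2 u v huv fun e => hnE (by rw [e]; exact he0)
  · have h1 := hF.fr j hj
    rw [Function.update_of_ne hju] at h1
    refine h1.imp (fun u v hu hv huv => a2 u v huv ?_) fun q hq a ha => ⟨hq, ha, rfl⟩
    exact edge_cell hc (by omega) (by omega) hju hu ⟨_, rfl⟩ ⟨_, rfl⟩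

open Classical in
/-- inserting a cycle at a slot, which is moved to this cycle -/
theorem ohalf1 (hc : OCells R N n pt par) {k : ℕ} (h0 : 0 < k) (hk : k < N) {S : Set X}
    {M : X → X → Prop} {loc loc' : X → ℕ} {F F' : X → Set X} {ab ab' : X → Option (ZMod n)}
    {need : ℕ → ℕ} {r : X → X} {l : List X} (hM : Mat M S)
    (hF : OFine R pt k S M loc' F' ab' need r l) {t : X} (ht : t ∈ S) (htk : loc t = k)
    (hFF : ∀ q, q ≠ t → F' q ⊆ F q) (hloc : ∀ q, q ≠ t → loc' q = loc q)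
    (hab : ∀ q, q ≠ t → ab' q = ab q) {b c : ZMod n} (hb : r t = pt (par k) b)
    (hbc : c = b + 1 ∨ b = c + 1) (he : pt k c ∈ F t) :
    ∃ l' h z0, OHalf R pt k S M loc F ab need (Function.update r t (pt k c)) l' h z0 ∧
      h.getLast? = some (pt k c) ∧ (z0 = c ∨ z0 + 1 = c) ∧
      (∀ q ∈ S, q ≠ t → (Function.update r t (pt k c)) q ∉ Cy pt k) := by
  obtain ⟨h, z0, hh1, hh2, hh3, hh4, hh5, hh6⟩ := exists_round hc hk hbc
  obtain ⟨l', a1, a2, a3⟩ := hF.sol.ins_slot hc.symm hM ht hh1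
    (fun z hz => hc.not_mem hk ((hh3 z).1 hz)) hh4 (by rw [hb]; exact hc.rung k h0 hk b)
  rw [union_eq hh3] at a1
  refine ⟨l', h, z0, ⟨a1, ?_, ?_, hh1, hh2, hh3, hh5, a3⟩, hh4.last, ?_, ?_⟩
  · intro q hq
    by_cases hqt : q = t
    · rw [hqt, Function.update_self]
      exact he
    · rw [Function.update_of_ne hqt]
      exact hFF q hqt (hF.fin q hq)
  · intro j hj
    refine (hF.fr j hj).imp (fun u v hu hv huv => a2 u v ⟨j, hj, hu⟩ ⟨j, hj, hv⟩ huv) ?_
    rintro q ⟨hq1, hq2⟩ a ha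
    have hqt : q ≠ t := by
      rintro rfl
      omega
    exact ⟨⟨hq1, by rw [hloc q hqt]; exact hq2⟩, by rw [hab q hqt]; exact ha,
      Function.update_of_ne hqt _ _⟩
  · rcases hh6 with ⟨rfl, rfl⟩ | ⟨rfl, -⟩
    · exact Or.inr rfl
    · exact Or.inl rfl
  · intro q hq hqt hD
    rw [Function.update_of_ne hqt] at hD
    exact hc.not_mem hk hD (hF.sol.rmem q hq)

/-- inserting a cycle between two joined partners -/
theorem ohalf2 (hc : OCells R N n pt par) {k : ℕ} (hk : k < N) {S : Set X}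
    {M : X → X → Prop} {loc : X → ℕ} {F : X → Set X} {ab : X → Option (ZMod n)} {need : ℕ → ℕ}
    {r : X → X} {l : List X} (hM : Mat M S)
    {i j a b : X} (hia : M i a) (hjb : M j b) (hij : i ≠ j) (hn : ¬ M i j) (hik : loc i = k)
    (hjk : loc j = k)
    (hF : OFine R pt k (S \ {i, j}) (jn M i j a b) loc F ab need r l) {c d : ZMod n}
    (hcd : d = c + 1) (hc1 : pt k c ∈ F i) (hd1 : pt k d ∈ F j) :
    ∃ r' l' h z0, OHalf R pt k S M loc F ab need r' l' h z0 ∧ r' i = pt k c ∧ r' j = pt k d := by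
  classical
  obtain ⟨h, z0, hh1, hh2, hh3, hh4, hh5, -⟩ := exists_round hc hk (b := c) (c := d) (Or.inl hcd)
  have hne : pt k c ≠ pt k d := by
    intro e
    have := (hc.inj k k hk hk _ _ e).2
    rw [hcd] at this
    exact hc.ne_succ c this
  obtain ⟨l', a1, a2, a3⟩ := Sol.ins_join hc.symm hM hia hjb hij hn hF.sol hh1
    (fun z hz => hc.not_mem hk ((hh3 z).1 hz)) hh4 hne
  rw [union_eq hh3] at a1
  refine ⟨_, l', h, z0, ⟨a1, ?_, ?_, hh1, hh2, hh3, hh5, a3⟩, ?_, Function.update_self _ _ _⟩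
  · intro q hq
    by_cases hqj : q = j
    · rw [hqj, Function.update_self]
      exact hd1
    · rw [Function.update_of_ne hqj]
      by_cases hqi : q = i
      · rw [hqi, Function.update_self]
        exact hc1
      · rw [Function.update_of_ne hqi]
        exact hF.fin q ⟨hq, by simp [hqi, hqj]⟩
  · intro j' hj'
    refine (hF.fr j' hj').imp (fun u v hu hv huv => a2 u v ⟨j', hj', hu⟩ ⟨j', hj', hv⟩ huv) ?_
    rintro q ⟨hq1, hq2⟩ a ha
    have hqi : q ≠ i := by rintro rfl; omega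
    have hqj : q ≠ j := by rintro rfl; omega
    exact ⟨⟨⟨hq1, by simp [hqi, hqj]⟩, hq2⟩, ha, by
      rw [Function.update_of_ne hqj, Function.update_of_ne hqi]⟩
  · rw [Function.update_of_ne hij, Function.update_self]

/-- the demand of a slot at its centre -/
theorem ab_centre (hc : OCells R N n pt par) {l : List X} {M : X → X → Prop} {r : X → X} {j : ℕ}
    {E : Finset (Sym2 X)} {a : ZMod n} : Ab pt l M r j E a (pt j a) := by
  have h3 := hc.three
  refine ⟨1, n - 1, Or.inl rfl, ?_, by omega, ?_, fun m hm => absurd hm (by omega)⟩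
  · exact Nat.Odd.sub_odd hc.odd odd_one
  · rw [Nat.cast_sub (by omega), ZMod.natCast_self, Nat.cast_one]
    congr 1
    ring

/-- no more slots in the last cycle, except for slots at their centre -/
theorem OHalf.close (hc : OCells R N n pt par) {k : ℕ} (hk : k < N) {S : Set X}
    {M : X → X → Prop} {loc : X → ℕ} {F : X → Set X} {ab : X → Option (ZMod n)} {need : ℕ → ℕ}
    {r : X → X} {l h : List X} {z0 : ZMod n} (hH : OHalf R pt k S M loc F ab need r l h z0)
    (hn : need k ≤ 2) (hab : ∀ q ∈ S, loc q = k → ∀ a, ab q = some a → r q = pt k a) :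
    OFine R pt (k + 1) S M loc F ab need r l := by
  refine ⟨hH.sol, hH.fin, fun j hj => ?_⟩
  rcases Nat.lt_or_ge j k with hjk | hjk
  · exact hH.fr j hjk
  · obtain rfl : j = k := by omega
    classical
    have e1 : z0 + 1 ≠ z0 := (hc.ne_succ z0).symm
    have e2 : z0 + 1 + 1 ≠ z0 := hc.ne_two z0
    refine ⟨{s(pt j (z0 + 1), pt j (z0 + 1 + 1)), s(pt j (z0 + 1 + 1), pt j (z0 + 1 + 1 + 1))},
      ?_, fun e he => ?_, fun q hq a ha => ?_⟩
    · rw [Finset.card_pair]
      · exact hn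
      · intro e
        exact hc.ne_succ (z0 + 1) (edge_inj hc hk e)
    · rw [Finset.mem_insert, Finset.mem_singleton] at he
      rcases he with rfl | rfl
      · exact ⟨_, rfl, hH.free _ _ (hH.nb _ e1)⟩
      · exact ⟨_, rfl, hH.free _ _ (hH.nb _ e2)⟩
    · rw [hab q hq.1 hq.2 a ha]
      exact ab_centre hc

/-- a slot with a demand in the last cycle -/
theorem OHalf.close_abs (hc : OCells R N n pt par) {k : ℕ} (hk : k < N) {S : Set X}
    {M : X → X → Prop} {loc : X → ℕ} {F : X → Set X} {ab : X → Option (ZMod n)} {need : ℕ → ℕ}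
    {r : X → X} {l h : List X} {z0 : ZMod n} (hH : OHalf R pt k S M loc F ab need r l h z0)
    (hn : need k ≤ 1) {t : X} {τ : ZMod n} (hτ : r t = pt k τ) (hz : z0 = τ ∨ z0 + 1 = τ)
    (hab : ∀ q ∈ S, loc q = k → q = t) :
    OFine R pt (k + 1) S M loc F ab need r l := by
  have h3 := hc.three
  refine ⟨hH.sol, hH.fin, fun j hj => ?_⟩
  rcases Nat.lt_or_ge j k with hjk | hjk
  · exact hH.fr j hjk
  · obtain rfl : j = k := by omega
    classical
    -- the other edge at `τ`
    obtain ⟨z1, hz1, hz1'⟩ : ∃ z1, z1 ≠ z0 ∧ (z1 = τ ∨ z1 + 1 = τ) := by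
      rcases hz with rfl | rfl
      · refine ⟨z0 - 1, ?_, Or.inr (by ring)⟩
        intro e
        have := hc.ne_succ (z0 - 1)
        rw [sub_add_cancel] at this
        exact this e
      · exact ⟨z0 + 1, (hc.ne_succ z0).symm, Or.inl rfl⟩
    refine ⟨{s(pt j z1, pt j (z1 + 1))}, by rw [Finset.card_singleton]; exact hn,
      fun e he => ?_, fun q hq a ha => ?_⟩
    · rw [Finset.mem_singleton] at he
      subst he
      exact ⟨z1, rfl, hH.free _ _ (hH.nb _ hz1)⟩
    · obtain rfl := hab q hq.1 hq.2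
      rw [hτ]
      obtain ⟨δ, κ, hδ, hκ, hκn, e1⟩ := exists_even hc (a + 1) τ
      refine ⟨δ, κ, hδ, hκ, hκn, by rw [← e1], fun m hm => ?_⟩
      -- these vertices are different from `τ`
      have hpos : ∀ i : ℕ, 0 < i → κ + i < n → a + 1 - δ * (i : ZMod n) ≠ τ := by
        intro i hi hin e
        have e2 : δ * ((κ + i : ℕ) : ZMod n) = δ * ((0 : ℕ) : ZMod n) := by
          have e3 : δ * ((κ + i : ℕ) : ZMod n) = (a + 1 + δ * (κ : ZMod n)) -
              (a + 1 - δ * (i : ZMod n)) := by push_cast; ring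
          rw [e3, ← e1, e]
          simp
        have := cast_inj hin (by omega) (sign_cancel hδ e2)
        omega
      have hp1 := hpos (2 * m + 1) (by omega) (by omega)
      have hp2 := hpos (2 * m + 2) (by omega) (by omega)
      have hstep : a + 1 - δ * ((2 * m + 1 : ℕ) : ZMod n) =
          a + 1 - δ * ((2 * m + 2 : ℕ) : ZMod n) + δ := by push_cast; ring
      constructor
      · -- the pair is an edge of the path
        rcases hδ with rfl | rfl
        · have h4 : a + 1 - 1 * ((2 * m + 2 : ℕ) : ZMod n) ≠ z0 := by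
            intro e
            rcases hz with h5 | h5
            · exact hp2 (e.trans h5)
            · rw [hstep, e] at hp1
              exact hp1 h5
          have h5 := hH.free _ _ (hH.nb _ h4)
          rw [← hstep] at h5
          exact Free.symm h5
        · have hstep' : a + 1 - (-1) * ((2 * m + 2 : ℕ) : ZMod n) =
            a + 1 - (-1) * ((2 * m + 1 : ℕ) : ZMod n) + 1 := by push_cast; ring
          have h4 : a + 1 - (-1) * ((2 * m + 1 : ℕ) : ZMod n) ≠ z0 := by
            intro e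
            rcases hz with h5 | h5
            · exact hp1 (e.trans h5)
            · rw [hstep', e] at hp2
              exact hp2 h5
          have h5 := hH.free _ _ (hH.nb _ h4)
          rw [← hstep'] at h5
          exact h5
      · rw [Finset.mem_singleton]
        intro e
        rw [Sym2.eq_iff] at e
        have hinj : ∀ x y : ZMod n, pt j x = pt j y → x = y :=
          fun x y e => (hc.inj j j hk hk _ _ e).2
        rcases e with ⟨e3, e4⟩ | ⟨e3, e4⟩
        · rcases hz1' with h5 | h5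
          · exact hp1 ((hinj _ _ e3).trans h5)
          · exact hp2 ((hinj _ _ e4).trans h5)
        · rcases hz1' with h5 | h5
          · exact hp2 ((hinj _ _ e4).trans h5)
          · exact hp1 ((hinj _ _ e3).trans h5)

/-- a matched pair of slots in the last cycle -/
theorem OHalf.close_pair (hc : OCells R N n pt par) {k : ℕ} (hk : k < N) {S : Set X}
    {M : X → X → Prop} {loc : X → ℕ} {F : X → Set X} {ab : X → Option (ZMod n)} {need : ℕ → ℕ}
    {r : X → X} {l h : List X} {z0 : ZMod n} (hM : Mat M S) {i j : X}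
    (hij : M i j) (hik : loc i = k) (hjk : loc j = k)
    (hH : OHalf R pt k (S \ {i, j}) (er M i j) loc F ab need r l h z0) {y z : X} (hy : y ∈ F i)
    (hz : z ∈ F j) (hyz : Nb h y z) (hry : ∀ p ∈ S \ {i, j}, r p ≠ y)
    (hrz : ∀ p ∈ S \ {i, j}, r p ≠ z) (hn : need k ≤ 1)
    (hab : ∀ q ∈ S, loc q = k → ∀ a, ab q = some a → q = i ∧ y = pt k a) :
    ∃ r', OFine R pt (k + 1) S M loc F ab need r' l := by
  classical
  obtain ⟨a1, a2⟩ := Sol.add_pair hM hij hH.sol (hH.free y z hyz) hry hrz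
  have hij' : i ≠ j := by rintro rfl; exact hM.irr _ hij
  refine ⟨_, a1, ?_, fun j' hj' => ?_⟩
  · intro q hq
    by_cases hqj : q = j
    · rw [hqj, Function.update_self]
      exact hz
    · rw [Function.update_of_ne hqj]
      by_cases hqi : q = i
      · rw [hqi, Function.update_self]
        exact hy
      · rw [Function.update_of_ne hqi]
        exact hH.fin q ⟨hq, by simp [hqi, hqj]⟩
  · have hy' := (hH.mem y).1 hyz.mem_left
    have hz' := (hH.mem z).1 hyz.mem_right
    rcases Nat.lt_or_ge j' k with hjk' | hjk'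
    · refine (hH.fr j' hjk').imp (fun u v hu hv huv => a2 u v huv
        (edge_cell hc (by omega) hk (by omega) hu hy' hz')) ?_
      rintro q ⟨hq1, hq2⟩ a ha
      have hqi : q ≠ i := by rintro rfl; omega
      have hqj : q ≠ j := by rintro rfl; omega
      exact ⟨⟨⟨hq1, by simp [hqi, hqj]⟩, hq2⟩, ha, by
        rw [Function.update_of_ne hqj, Function.update_of_ne hqi]⟩
    · obtain rfl : j' = k := by omega
      have e1 : z0 + 1 ≠ z0 := (hc.ne_succ z0).symm
      have e2 : z0 + 1 + 1 ≠ z0 := hc.ne_two z0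
      have hdem : ∀ E : Finset (Sym2 X), ∀ q ∈ {q | q ∈ S ∧ loc q = j'}, ∀ a, ab q = some a →
          Ab pt l M (Function.update (Function.update r i y) j z) j' E a
            (Function.update (Function.update r i y) j z q) := by
        rintro E q ⟨hq1, hq2⟩ a ha
        obtain ⟨rfl, hya⟩ := hab q hq1 hq2 a ha
        rw [Function.update_of_ne hij', Function.update_self, hya]
        exact ab_centre hc
      by_cases hab' : s(pt j' (z0 + 1), pt j' (z0 + 1 + 1)) = s(y, z)
      · refine ⟨{s(pt j' (z0 + 1 + 1), pt j' (z0 + 1 + 1 + 1))},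
          by rw [Finset.card_singleton]; exact hn, fun e he => ?_, hdem _⟩
        rw [Finset.mem_singleton] at he
        subst he
        refine ⟨_, rfl, a2 _ _ (hH.free _ _ (hH.nb _ e2)) fun e => ?_⟩
        rw [← hab'] at e
        exact hc.ne_succ (z0 + 1) (edge_inj hc hk e).symm
      · refine ⟨{s(pt j' (z0 + 1), pt j' (z0 + 1 + 1))},
          by rw [Finset.card_singleton]; exact hn, fun e he => ?_, hdem _⟩
        rw [Finset.mem_singleton] at he
        subst he
        exact ⟨_, rfl, a2 _ _ (hH.free _ _ (hH.nb _ e1)) hab'⟩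

end Pool.Agent.Helper43.LO
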