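import Pool.Agent.Helper43.LO.Cover
import Pool.Agent.Helper43.LT.Group

/-!
# Windows with two generations of ancestors
-/

set_option autoImplicit false

namespace Pool.Agent.Helper43.LO

open Equiv Finset Pool.Agent.H718C Pool.Agent.Helper43.LG Pool.Agent.Helper43.LT

variable {G : Type*} [Group G]

theorem exists_window2 [Finite G] {L H : Subgroup G} (hLH : L ≤ H) {N : ℕ} {w : ℕ → G}
    (hw : Reps L H N w) (hN : 0 < N) {par : ℕ → ℕ} (hpar : ∀ j, 0 < j → j < N → par j < j)
    (htwo : ∀ u < N, ((Finset.range N).filter (fun j => 0 < j ∧ par j = u)).card ≤ 2) :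
    ∃ wd nb : G ⧸ L → Finset (G ⧸ L), (∀ y, y ∈ wd y) ∧ (∀ y, (nb y).card ≤ 15) ∧
      (∀ x y, ¬ Disjoint (wd x) (wd y) → x ∈ nb y) ∧
      ∀ (x : G) (i : ℕ), i < N → x ∈ Dc L w ((x : G ⧸ H).out) i →
        ∀ j, Anc par j i → (((x : G ⧸ H).out * w j : G) : G ⧸ L) ∈ wd (x : G ⧸ L) := by
  classical
  have : Fintype (G ⧸ L) := Fintype.ofFinite _
  have hout : ∀ x : G, ((x : G ⧸ H).out)⁻¹ * x ∈ H := by
    intro x
    rw [← QuotientGroup.eq]
    exact QuotientGroup.out_eq' _
  -- the base of a coset of `L`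
  set base : G ⧸ L → G := fun y => (((y.out : G) : G ⧸ H)).out with hbase
  have hex : ∀ y : G ⧸ L, ∃ i, i < N ∧ ((base y * w i : G) : G ⧸ L) = y := by
    intro y
    obtain ⟨i, hi, h⟩ := hw.all _ (hout y.out)
    refine ⟨i, hi, ?_⟩
    rw [← QuotientGroup.out_eq' y, QuotientGroup.eq, QuotientGroup.out_eq' y, mul_inv_rev,
      mul_assoc]
    exact h
  choose idx idx1 idx2 using hex
  set pr : ℕ → ℕ := fun j => if j = 0 then 0 else par j with hpr
  have pr0 : pr 0 = 0 := if_pos rfl
  have prp : ∀ j, 0 < j → pr j = par j := fun j hj => if_neg (by omega)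
  have prN : ∀ j, j < N → pr j < N := by
    intro j hj
    rcases Nat.eq_zero_or_pos j with h | h
    · rw [h, pr0]; exact hN
    · rw [prp j h]
      have := hpar j h hj
      omega
  set wd : G ⧸ L → Finset (G ⧸ L) := fun y => {y, ((base y * w (pr (idx y)) : G) : G ⧸ L),
    ((base y * w (pr (pr (idx y))) : G) : G ⧸ L)} with hwd
  -- elements of the windows
  have hwd' : ∀ y z, z ∈ wd y → ∃ a, a < N ∧ (a = idx y ∨ a = pr (idx y) ∨ a = pr (pr (idx y))) ∧
      z = ((base y * w a : G) : G ⧸ L) := by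
    intro y z hz
    simp only [hwd, mem_insert, mem_singleton] at hz
    rcases hz with rfl | rfl | rfl
    · exact ⟨idx z, idx1 z, Or.inl rfl, (idx2 z).symm⟩
    · exact ⟨pr (idx y), prN _ (idx1 y), Or.inr (Or.inl rfl), rfl⟩
    · exact ⟨pr (pr (idx y)), prN _ (prN _ (idx1 y)), Or.inr (Or.inr rfl), rfl⟩
  -- equal cosets have equal base and index
  have hbb : ∀ (x y : G ⧸ L) (a b : ℕ), a < N → b < N →
      ((base x * w a : G) : G ⧸ L) = ((base y * w b : G) : G ⧸ L) → base x = base y ∧ a = b := by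
    intro x y a b ha hb h
    rw [QuotientGroup.eq] at h
    have h4 : (base x)⁻¹ * base y ∈ H := by
      have e : (base x)⁻¹ * base y = w a * ((base x * w a)⁻¹ * (base y * w b)) * (w b)⁻¹ := by
        group
      rw [e]
      exact H.mul_mem (H.mul_mem (hw.mem a ha) (hLH h)) (H.inv_mem (hw.mem b hb))
    have h5 : base x = base y := by
      have a1 : ((base x : G) : G ⧸ H) = ((x.out : G) : G ⧸ H) := QuotientGroup.out_eq' _
      have a2 : ((base y : G) : G ⧸ H) = ((y.out : G) : G ⧸ H) := QuotientGroup.out_eq' _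
      have a3 : ((base x : G) : G ⧸ H) = ((base y : G) : G ⧸ H) := QuotientGroup.eq.2 h4
      rw [a1, a2] at a3
      simp only [hbase]
      rw [a3]
    refine ⟨h5, hw.inj a b ha hb ?_⟩
    rw [← h5] at h
    have e : (w a)⁻¹ * w b = (base x * w a)⁻¹ * (base x * w b) := by group
    rw [e]
    exact h
  -- children, grandchildren, descendants
  set ch : ℕ → Finset ℕ := fun u => (Finset.range N).filter (fun j => 0 < j ∧ par j = u) with hch
  set cc : ℕ → Finset ℕ := fun u => (ch u).biUnion ch with hcc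
  set De : ℕ → Finset ℕ := fun u => insert u (ch u ∪ cc u) with hDe
  have hchm : ∀ i, i < N → 0 < i → i ∈ ch (pr i) := fun i h1 h2 =>
    mem_filter.2 ⟨mem_range.2 h1, h2, (prp i h2).symm⟩
  have hchN : ∀ u i, i ∈ ch u → i < N := fun u i h => mem_range.1 (mem_filter.1 h).1
  have hchc : ∀ u, u < N → (ch u).card ≤ 2 := fun u hu => htwo u hu
  have hccc : ∀ u, u < N → (cc u).card ≤ 4 := by
    intro u hu
    refine (card_biUnion_le_card_mul _ _ 2 fun v hv => hchc v (hchN u v hv)).trans ?_
    have := hchc u hu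
    omega
  have hDec : ∀ u, u < N → (De u).card ≤ 7 := by
    intro u hu
    refine (card_insert_le _ _).trans ?_
    have e1 := card_union_le (ch u) (cc u)
    have e2 := hchc u hu
    have e3 := hccc u hu
    omega
  have d0 : ∀ i, i ∈ De i := fun i => mem_insert_self _ _
  have dch : ∀ u i, i ∈ ch u → i ∈ De u := fun u i h => mem_insert_of_mem (mem_union_left _ h)
  have dcc : ∀ u v i, v ∈ ch u → i ∈ ch v → i ∈ De u := fun u v i h1 h2 =>
    mem_insert_of_mem (mem_union_right _ (mem_biUnion.2 ⟨v, h1, h2⟩))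
  have d1 : ∀ i, i < N → i ∈ De (pr i) := by
    intro i hi
    rcases Nat.eq_zero_or_pos i with h | h
    · rw [h, pr0]; exact d0 0
    · exact dch _ _ (hchm i hi h)
  have d2 : ∀ i, i < N → i ∈ De (pr (pr i)) := by
    intro i hi
    rcases Nat.eq_zero_or_pos i with h | h
    · rw [h, pr0, pr0]; exact d0 0
    · rcases Nat.eq_zero_or_pos (pr i) with h' | h'
      · have := hchm i hi h
        rw [h'] at this ⊢
        rw [pr0]
        exact dch _ _ this
      · exact dcc _ _ _ (hchm (pr i) (prN i hi) h') (hchm i hi h)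
  have dsub : ∀ j, j < N → De j ⊆ De (pr j) ∪ cc j := by
    intro j hj i hi
    rw [mem_union]
    rcases mem_insert.1 hi with h | h
    · left
      rw [h]
      exact d1 j hj
    · rcases mem_union.1 h with h | h
      · left
        rcases Nat.eq_zero_or_pos j with h' | h'
        · rw [h'] at h ⊢
          rw [pr0]
          exact dch _ _ h
        · exact dcc _ _ _ (hchm j hj h') h
      · exact Or.inr h
  refine ⟨wd, fun y => univ.filter (fun x => ¬ Disjoint (wd x) (wd y)), ?_, ?_, ?_, ?_⟩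
  · intro y
    simp [hwd]
  · intro y
    set I : Finset ℕ := De (pr (pr (idx y))) ∪ cc (pr (idx y)) ∪ cc (idx y) with hI
    have i2 : De (pr (pr (idx y))) ⊆ I := subset_union_left.trans subset_union_left
    have i1 : De (pr (idx y)) ⊆ I :=
      (dsub _ (prN _ (idx1 y))).trans subset_union_left
    have i0 : De (idx y) ⊆ I := by
      refine (dsub _ (idx1 y)).trans (union_subset i1 subset_union_right)
    have hsub : (univ.filter (fun x => ¬ Disjoint (wd x) (wd y))) ⊆
        I.image (fun i => ((base y * w i : G) : G ⧸ L)) := by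
      intro x hx
      have hx' := (mem_filter.1 hx).2
      rw [not_disjoint_iff] at hx'
      obtain ⟨z, hz1, hz2⟩ := hx'
      obtain ⟨a, ha, ha', rfl⟩ := hwd' x z hz1
      obtain ⟨b, hb, hb', hab⟩ := hwd' y _ hz2
      obtain ⟨h1, rfl⟩ := hbb x y a b ha hb hab
      rw [mem_image]
      refine ⟨idx x, ?_, by rw [← h1]; exact idx2 x⟩
      have hxN := idx1 x
      have h2 : idx x ∈ De a := by
        rcases ha' with rfl | rfl | rfl
        · exact d0 _
        · exact d1 _ hxN
        · exact d2 _ hxN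
      rcases hb' with rfl | rfl | rfl
      · exact i0 h2
      · exact i1 h2
      · exact i2 h2
    refine (card_le_card hsub).trans (card_image_le.trans ?_)
    have e1 := card_union_le (De (pr (pr (idx y))) ∪ cc (pr (idx y))) (cc (idx y))
    have e2 := card_union_le (De (pr (pr (idx y)))) (cc (pr (idx y)))
    have e3 := hDec _ (prN _ (prN _ (idx1 y)))
    have e4 := hccc _ (prN _ (idx1 y))
    have e5 := hccc _ (idx1 y)
    rw [hI]
    omega
  · intro x y h
    exact mem_filter.2 ⟨mem_univ _, h⟩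
  · intro x i hi hx j hj
    have h1 : (x : G ⧸ L) = (((x : G ⧸ H).out * w i : G) : G ⧸ L) := (QuotientGroup.eq.2 hx).symm
    have h2 : base (x : G ⧸ L) = (x : G ⧸ H).out := by
      have h3 : ((x : G ⧸ L).out)⁻¹ * x ∈ L := by
        rw [← QuotientGroup.eq]
        exact QuotientGroup.out_eq' _
      have h4 : (((x : G ⧸ L).out : G) : G ⧸ H) = (x : G ⧸ H) := QuotientGroup.eq.2 (hLH h3)
      simp only [hbase]
      rw [h4]
    have h3 : idx (x : G ⧸ L) = i := by
      refine (hbb (x : G ⧸ L) (x : G ⧸ L) _ i (idx1 _) hi ?_).2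
      rw [idx2, h2]
      exact h1
    have h4 : ∀ z, z = (x : G ⧸ L) ∨
        z = ((base (x : G ⧸ L) * w (pr (idx (x : G ⧸ L))) : G) : G ⧸ L) ∨
        z = ((base (x : G ⧸ L) * w (pr (pr (idx (x : G ⧸ L)))) : G) : G ⧸ L)
        → z ∈ wd (x : G ⧸ L) := by
      intro z hz
      simp only [hwd, mem_insert, mem_singleton]
      exact hz
    apply h4
    rcases hj with rfl | ⟨hj0, rfl⟩ | ⟨hj0, hj1, rfl⟩
    · exact Or.inl h1.symm
    · right; left
      rw [h2, h3, prp i hj0]
    · right; right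
      rw [h2, h3, prp i hj0, prp _ hj1]

/-- **Trees of odd cycles in a group.** -/
theorem group_otree [Finite G] (A : Set G) (hA : ∀ x ∈ A, x⁻¹ ∈ A)
    (hgen : Subgroup.closure A = ⊤) {L H : Subgroup G} (hLH : L ≤ H) {N n : ℕ} {w : ℕ → G}
    (hw : Reps L H N w) (h240 : 240 ≤ N) {par : ℕ → ℕ}
    (hcells : ∀ g, ∃ pt : ℕ → ZMod n → G, OCells (fun x y => x⁻¹ * y ∈ A) N n pt par ∧
      ∀ j < N, Cy pt j = Dc L w g j) :
    ∃ σ : Perm G, (∀ x, x⁻¹ * σ x ∈ A) ∧ ∀ x y, σ.SameCycle x y := by
  classical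
  have : Fintype G := Fintype.ofFinite G
  have : Fintype (G ⧸ H) := Fintype.ofFinite _
  have hN : 0 < N := by omega
  have h80' : 16 * 15 * Nat.card L ≤ Nat.card H :=
    (Nat.mul_le_mul_right _ h240).trans (card_le_of_reps hLH hw)
  obtain ⟨pt1, hc1, -⟩ := hcells 1
  obtain ⟨wd, nb, hself, hK, hmeet, hval⟩ := exists_window2 hLH hw hN hc1.par_lt hc1.two
  obtain ⟨C, hCA, hCH, F, hF1, hF2, hF3⟩ := exists_links A hgen H (by norm_num) h80' wd nb
    hself hK hmeet
  let el : F × Bool → G := fun y => if y.2 then (y.1 : G × C).1 * (y.1 : G × C).2 else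
    (y.1 : G × C).1
  have elf : ∀ q : F, el (q, false) = (q : G × C).1 := fun q => rfl
  have elt : ∀ q : F, el (q, true) = (q : G × C).1 * (q : G × C).2 := fun q => rfl
  have hat : ∀ y : F × Bool, ((el y : G) : G ⧸ H) =
      (if y.2 then tv H C (y.1 : G × C) else sv H C (y.1 : G × C)) := by
    rintro ⟨q, β⟩
    cases β <;> rfl
  have hends : ∀ q : F, ((el (q, false) : G) : G ⧸ H) ≠ ((el (q, true) : G) : G ⧸ H) := by
    intro q h
    rw [elf, elt, QuotientGroup.eq, inv_mul_cancel_left] at h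
    exact hCH _ (q : G × C).2.2 h
  -- windows of the ends
  have hwin : ∀ y : F × Bool, wd ((el y : G) : G ⧸ L) ⊆ SW wd (y.1 : G × C) := by
    rintro ⟨q, β⟩
    cases β
    · exact subset_union_left
    · exact subset_union_right
  have hdis : ∀ y y' : F × Bool, y.1 ≠ y'.1 →
      Disjoint (wd ((el y : G) : G ⧸ L)) (wd ((el y' : G) : G ⧸ L)) := by
    intro y y' h
    have := hF1 _ y.1.2 _ y'.1.2 (fun e => h (Subtype.ext e))
    exact (this.mono_left (hwin y)).mono_right (hwin y')
  have hinj : Function.Injective el := by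
    rintro ⟨q, β⟩ ⟨q', β'⟩ h
    by_cases hq : q = q'
    · subst hq
      cases β <;> cases β'
      · rfl
      · exact absurd (congrArg (fun z : G => (z : G ⧸ H)) h) (hends q)
      · exact absurd (congrArg (fun z : G => (z : G ⧸ H)) h).symm (hends q)
      · rfl
    · exfalso
      have := hdis (q, β) (q', β') hq
      rw [h, disjoint_self_iff_empty] at this
      have h0 := hself ((el (q', β') : G) : G ⧸ L)
      rw [this] at h0
      simp at h0
  let T : Set G := Set.range el
  let fl : F × Bool → F × Bool := fun y => (y.1, !y.2)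
  have hflfl : ∀ y, fl (fl y) = y := by
    rintro ⟨q, β⟩
    simp [fl]
  have hfl : ∀ y, fl y ≠ y := by
    rintro ⟨q, β⟩ h
    have := congrArg Prod.snd h
    simp [fl] at this
  let μ : G → G := fun x => if h : ∃ y, el y = x then el (fl h.choose) else x
  have hμ0 : ∀ y, μ (el y) = el (fl y) := by
    intro y
    have h : ∃ y', el y' = el y := ⟨y, rfl⟩
    have h1 : μ (el y) = el (fl h.choose) := dif_pos h
    rw [h1, hinj h.choose_spec]
  have hμ : ∀ p ∈ T, μ p ∈ T ∧ μ (μ p) = p ∧ μ p ≠ p ∧ p⁻¹ * μ p ∈ A := by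
    rintro _ ⟨y, rfl⟩
    rw [hμ0]
    refine ⟨⟨_, rfl⟩, by rw [hμ0, hflfl], fun h => hfl y (hinj h), ?_⟩
    rcases y with ⟨q, β⟩
    cases β
    · change (el (q, false))⁻¹ * el (q, true) ∈ A
      rw [elf, elt, inv_mul_cancel_left]
      exact hCA (q : G × C).2.2
    · change (el (q, true))⁻¹ * el (q, false) ∈ A
      rw [elf, elt]
      have e : ((q : G × C).1 * ((q : G × C).2 : G))⁻¹ * (q : G × C).1 =
        (((q : G × C).2 : G))⁻¹ := by group
      rw [e]
      exact hA _ (hCA (q : G × C).2.2)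
  refine assemble (fun x : G => (x : G ⧸ H)) (fun x y => x⁻¹ * y ∈ A) ?_ T μ hμ ?_ ?_ ?_
  · intro x y h
    have := hA _ h
    rwa [mul_inv_rev, inv_inv] at this
  · -- the covering property
    intro v
    set g := v.out with hg
    have hgv : (g : G ⧸ H) = v := QuotientGroup.out_eq' _
    obtain ⟨pt, hc, hCy⟩ := hcells g
    have hpart : ∀ x : G, x ∈ LT.Un (Cy pt) N ↔ (x : G ⧸ H) = v := by
      intro x
      have h1 : x ∈ LT.Un (Cy pt) N ↔ x ∈ LG.Un (Dc L w g) (N - 1) := by
        constructor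
        · rintro ⟨j, hj, hx⟩
          rw [hCy j hj] at hx
          exact ⟨j, by omega, hx⟩
        · rintro ⟨j, hj, hx⟩
          refine ⟨j, by omega, ?_⟩
          rw [hCy j (by omega)]
          exact hx
      rw [h1, Un_cells hLH hw hN g x, ← QuotientGroup.eq, hgv]
      exact eq_comm
    have hsep : ∀ v i j, i < N → j < N → Anc par v i → Anc par v j →
        ∀ p ∈ T, ∀ q ∈ T, p ∈ Cy pt i → q ∈ Cy pt j → p = q := by
      intro u i j hi hj hui huj p hp q hq hpD hqD
      obtain ⟨y, rfl⟩ := hp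
      obtain ⟨y', rfl⟩ := hq
      have hpv : ((el y : G) : G ⧸ H) = v := (hpart _).1 ⟨i, hi, hpD⟩
      have hqv : ((el y' : G) : G ⧸ H) = v := (hpart _).1 ⟨j, hj, hqD⟩
      by_cases hyy : y.1 = y'.1
      · rcases y with ⟨q1, β⟩
        rcases y' with ⟨q2, β'⟩
        have hq12 : q1 = q2 := hyy
        subst hq12
        cases β <;> cases β'
        · rfl
        · exact absurd (hpv.trans hqv.symm) (hends q1)
        · exact absurd (hqv.trans hpv.symm) (hends q1)
        · rfl
      · exfalso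
        have hd := hdis y y' hyy
        rw [hCy i hi] at hpD
        rw [hCy j hj] at hqD
        have h1 := hval (el y) i hi (by rw [hpv]; exact hpD)
        have h2 := hval (el y') j hj (by rw [hqv]; exact hqD)
        rw [hpv] at h1
        rw [hqv] at h2
        rw [disjoint_left] at hd
        exact hd (h1 u hui) (h2 u huj)
    refine star_of_cyc _ _ _ _ ?_ ?_
    · intro a b
      by_contra hno
      push Not at hno
      have hin : ∀ x y : ZMod n, pt 0 x = pt 0 y → x = y := fun x y e =>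
        (hc.inj 0 0 hN hN _ _ e).2
      have hm : ∀ x : ZMod n, pt 0 x = a ∨ pt 0 x = b := by
        intro x
        by_cases h : pt 0 x = a
        · exact Or.inl h
        · exact Or.inr (hno _ ((hpart _).1 ⟨0, hN, ⟨x, rfl⟩⟩) h)
      have n1 := hc.ne_succ 0
      have n2 := hc.ne_succ (0 + 1)
      have n3 := hc.ne_two 0
      rcases hm 0 with h1 | h1 <;> rcases hm (0 + 1) with h2 | h2 <;>
        rcases hm (0 + 1 + 1) with h3 | h3
      · exact n1 (hin _ _ (h1.trans h2.symm))
      · exact n1 (hin _ _ (h1.trans h2.symm))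
      · exact n3 (hin _ _ (h3.trans h1.symm))
      · exact n2 (hin _ _ (h2.trans h3.symm))
      · exact n2 (hin _ _ (h2.trans h3.symm))
      · exact n3 (hin _ _ (h3.trans h1.symm))
      · exact n1 (hin _ _ (h1.trans h2.symm))
      · exact n1 (hin _ _ (h1.trans h2.symm))
    · intro M hM
      have hU : LT.Un (Cy pt) N = {x : G | (x : G ⧸ H) = v} := by
        ext x
        exact hpart x
      have hS : {x : G | x ∈ T ∧ (x : G ⧸ H) = v} = {x : G | x ∈ T ∧ x ∈ LT.Un (Cy pt) N} := by
        rw [hU]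
        rfl
      rw [hS] at hM
      obtain ⟨l, hl⟩ := otree_cyc hc hN hsep hM
      rw [hU] at hl
      exact ⟨l, hl⟩
  · -- parity
    intro v
    have h1 := even_half (sv H C) (tv H C) F hF2 v
    have h2 : {x : G | x ∈ T ∧ (x : G ⧸ H) = v} =
        ((univ.filter (fun y : F × Bool => (if y.2 then tv H C y.1 else sv H C y.1) = v)).image
          el : Finset G) := by
      ext x
      simp only [Set.mem_ofPred_eq, coe_image, coe_filter, mem_univ, true_and, Set.mem_image]
      constructor
      · rintro ⟨⟨y, rfl⟩, hm⟩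
        exact ⟨y, by rw [← hat]; exact hm, rfl⟩
      · rintro ⟨y, hy, rfl⟩
        exact ⟨⟨y, rfl⟩, by rw [hat]; exact hy⟩
    rw [h2, Set.ncard_coe_finset, card_image_of_injective _ hinj]
    exact h1
  · -- connectivity
    intro P hP hne
    refine hF3 P ?_ hne
    intro q hq
    have h1 := hP (el (⟨q, hq⟩, false)) ⟨_, rfl⟩
    have h2 := hP (el (⟨q, hq⟩, true)) ⟨_, rfl⟩
    rw [hμ0] at h1 h2
    exact ⟨h1, h2⟩

end Pool.Agent.Helper43.LO
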